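import Pool.Agent.V5helper94.RO.Defs

/-!
# Properties closed under products and finite free coverings, true in dimension zero
-/

set_option autoImplicit false

open CategoryTheory AlgebraicGeometry MvPolynomial Pool.Agent.Y116.UV Pool.Agent.Z125.UN
  Pool.Agent.V5helper52.SF Pool.Agent.V5helper94.SV TensorProduct

namespace Pool.Agent.V5helper94.RO

variable {k : Type} [Field k]

/-- Properties of schemes over `k` which are closed under closed-open decompositions, products, and
finite free coverings, and true in dimension zero. -/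
structure Cls0 (sep : Prop) (P : Sch k → Prop) : Prop extends Bnd sep P where
  prod : ∀ (A B : Type) [CommRing A] [Algebra k A] [Algebra.FiniteType k A] [CommRing B]
    [Algebra k B] [Algebra.FiniteType k B], P (aff k A) → P (aff k B) → P (aff k (A ⊗[k] B))
  free : ∀ (A B : Type) [CommRing A] [Algebra k A] [Algebra.FiniteType k A] [CommRing B]
    [Algebra k B] [Algebra A B] [IsScalarTower k A B] (n : ℕ), 0 < n →
    Nonempty (B ≃ₗ[A] (Fin n → A)) → P (aff k B) → P (aff k A)
  zero : ∀ (A : Type) [CommRing A] [Algebra k A] [Algebra.FiniteType k A], ringKrullDim A ≤ 0 →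
    P (aff k A)

/-! ### isomorphisms of Kummer algebras -/

section iso

variable {B : Type} [CommRing B] [Algebra k B]

/-- the quotients of a Kummer algebra -/
theorem kumQuot (N : ℕ) (c x : B) : Nonempty ((Kum N c ⧸ Ideal.span {kc k N c x}) ≃ₐ[k]
    Kum N (qm k x c)) := by
  let f1 : Kum N c →ₐ[k] Kum N (qm k x c) :=
    kLift ((kc k N _).comp (qm k x)) (kr N _) (by rw [kr_pow (k := k), AlgHom.comp_apply])
      (by rw [AlgHom.comp_apply]; exact kc_unit)
  have hf1c : ∀ y, f1 (kc k N c y) = kc k N _ (qm k x y) := fun y => kLift_kc _ _ _ _ y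
  have hf1r : f1 (kr N c) = kr N _ := kLift_kr _ _ _ _
  let f := qLift f1 (c := kc k N c x) (by rw [hf1c, qm_self, map_zero])
  let g1 : (B ⧸ Ideal.span {x}) →ₐ[k] (Kum N c ⧸ Ideal.span {kc k N c x}) :=
    qLift ((qm k _).comp (kc k N c)) (by rw [AlgHom.comp_apply, qm_self])
  have hg1 : ∀ y, g1 (qm k x y) = qm k _ (kc k N c y) := fun y => rfl
  let g : Kum N (qm k x c) →ₐ[k] (Kum N c ⧸ Ideal.span {kc k N c x}) :=
    kLift g1 (qm k _ (kr N c)) (by rw [hg1, ← map_pow, kr_pow (k := k)])
      (by rw [hg1]; exact kc_unit.map _)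
  have hgc : ∀ y, g (kc k N _ y) = g1 y := fun y => kLift_kc _ _ _ _ y
  have hgr : g (kr N _) = qm k _ (kr N c) := kLift_kr _ _ _ _
  refine ⟨mkIso f g ?_ ?_⟩
  · apply q_ext
    intro y
    rw [AlgHom.comp_apply, qLift_qm]
    have h : g.comp f1 = qm k (kc k N c x) := by
      apply kum_ext
      · intro z
        rw [AlgHom.comp_apply, hf1c, hgc, hg1]
      · rw [AlgHom.comp_apply, hf1r, hgr]
    exact DFunLike.congr_fun h y
  · apply kum_ext
    · intro y
      obtain ⟨y, rfl⟩ := qm_surj (k := k) x y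
      rw [AlgHom.comp_apply, hgc, hg1, qLift_qm, hf1c]
      rfl
    · rw [AlgHom.comp_apply, hgr, qLift_qm, hf1r]
      rfl

/-- the Kummer algebra of exponent one -/
theorem kumOne (c : B) : Nonempty (Kum 1 c ≃ₐ[k] Localization.Away c) := by
  let f : Kum 1 c →ₐ[k] Localization.Away c :=
    kLift (IsScalarTower.toAlgHom k B (Localization.Away c)) (algebraMap B _ c)
      (by rw [pow_one]; rfl) (IsLocalization.Away.algebraMap_isUnit c)
  have hfc : ∀ y, f (kc k 1 c y) = algebraMap B _ y := fun y => kLift_kc _ _ _ _ y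
  have hfr : f (kr 1 c) = algebraMap B _ c := kLift_kr _ _ _ _
  let g : Localization.Away c →ₐ[k] Kum 1 c :=
    IsLocalization.liftAlgHom (M := Submonoid.powers c) (S := Localization.Away c)
      (f := kc k 1 c) (by
        rintro ⟨_, n, rfl⟩
        change IsUnit (kc k 1 c (c ^ n))
        rw [map_pow]
        exact kc_unit.pow n)
  have hg : ∀ y, g (algebraMap B _ y) = kc k 1 c y := fun y => IsLocalization.lift_eq _ _
  refine ⟨mkIso f g ?_ ?_⟩
  · apply kum_ext
    · intro y
      rw [AlgHom.comp_apply, hfc, hg]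
      rfl
    · rw [AlgHom.comp_apply, hfr, hg, ← kr_pow (k := k), pow_one]
      rfl
  · apply AlgHom.coe_ringHom_injective
    refine IsLocalization.ringHom_ext (Submonoid.powers c) ?_
    ext y
    change f (g (algebraMap B _ y)) = algebraMap B _ y
    rw [hg, hfc]

/-- Kummer algebras of the coordinate of the line -/
theorem kumLine {N : ℕ} (hN : 0 < N) : Nonempty (Kum N (X 0 : MvPolynomial (Fin 1) k) ≃ₐ[k]
    Kum 1 (X 0 : MvPolynomial (Fin 1) k)) := by
  let s : MvPolynomial (Fin 1) k := X 0
  have h1 : kr 1 s = kc k 1 s s := by rw [← kr_pow (k := k), pow_one]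
  let φ : MvPolynomial (Fin 1) k →ₐ[k] Kum 1 s := aeval fun _ => kr 1 s ^ N
  have hφ : φ s = kr 1 s ^ N := aeval_X _ _
  let ψ : MvPolynomial (Fin 1) k →ₐ[k] Kum N s := aeval fun _ => kr N s
  have hψ : ψ s = kr N s := aeval_X _ _
  let f : Kum N s →ₐ[k] Kum 1 s := kLift φ (kr 1 s) hφ.symm
    (by rw [hφ]; exact (kr_unit k one_pos).pow N)
  have hfc : ∀ y, f (kc k N s y) = φ y := fun y => kLift_kc _ _ _ _ y
  have hfr : f (kr N s) = kr 1 s := kLift_kr _ _ _ _
  let g : Kum 1 s →ₐ[k] Kum N s := kLift ψ (kr N s) (by rw [pow_one, hψ])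
    (by rw [hψ]; exact kr_unit k hN)
  have hgc : ∀ y, g (kc k 1 s y) = ψ y := fun y => kLift_kc _ _ _ _ y
  have hgr : g (kr 1 s) = kr N s := kLift_kr _ _ _ _
  refine ⟨mkIso f g ?_ ?_⟩
  · apply kum_ext
    · intro y
      rw [AlgHom.comp_apply, hfc]
      have h : g.comp φ = kc k N s := by
        apply MvPolynomial.algHom_ext
        intro i
        rw [Subsingleton.elim i 0]
        change g (φ s) = kc k N s s
        rw [hφ, map_pow, hgr, kr_pow (k := k)]
      exact DFunLike.congr_fun h y
    · rw [AlgHom.comp_apply, hfr, hgr]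
      rfl
  · apply kum_ext
    · intro y
      rw [AlgHom.comp_apply, hgc]
      have h : f.comp ψ = kc k 1 s := by
        apply MvPolynomial.algHom_ext
        intro i
        rw [Subsingleton.elim i 0]
        change f (ψ s) = kc k 1 s s
        rw [hψ, hfr, h1]
      exact DFunLike.congr_fun h y
    · rw [AlgHom.comp_apply, hgr, hfr]
      rfl

end iso

section

variable {sep : Prop} {P : Sch k → Prop} (hP : Cls0 sep P)

include hP

lemma iso0 {A B : Type} [CommRing A] [Algebra k A] [Algebra.FiniteType k A] [CommRing B]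
    [Algebra k B] (e : Nonempty (A ≃ₐ[k] B)) (h : P (aff k A)) : P (aff k B) := by
  obtain ⟨e⟩ := e
  exact iso_alg hP.toUni e h

lemma iso0_symm {A B : Type} [CommRing A] [Algebra k A] [Algebra.FiniteType k A] [CommRing B]
    [Algebra k B] (e : Nonempty (B ≃ₐ[k] A)) (h : P (aff k A)) : P (aff k B) := by
  obtain ⟨e⟩ := e
  exact iso_alg hP.toUni e.symm h

/-- Kummer coverings -/
lemma of_kum0 {N : ℕ} (hN : 0 < N) {E : Type} [CommRing E] [Algebra k E] [Algebra.FiniteType k E]
    (e : E) (h : P (aff k (Kum N e))) : P (aff k (Localization.Away e)) := by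
  obtain ⟨n, hn, hb⟩ := kum_free hN e
  have := away_ft (k := k) e
  exact hP.free _ _ n hn hb h

/-- the open subscheme `e ≠ 0` -/
lemma kum_one0 {E : Type} [CommRing E] [Algebra k E] [Algebra.FiniteType k E] (e : E)
    (h : P (aff k E)) (hq : P (aff k (E ⧸ Ideal.span {e}))) : P (aff k (Kum 1 e)) := by
  have := away_ft (k := k) e
  exact iso0_symm hP (kumOne e) (hP.opened _ _ (ft_aff sep) (triple_away e) hq h)

/-- the torus -/
lemma kum_line0 {N : ℕ} (hN : 0 < N) : P (aff k (Kum N (X 0 : MvPolynomial (Fin 1) k))) := by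
  have := kum_ft (k := k) one_pos (X 0 : MvPolynomial (Fin 1) k)
  refine iso0_symm hP (kumLine hN) (kum_one0 hP _ (hP.space 1) (hP.zero _ ?_))
  have h := dim_quot (N := 0) (Ideal.span {(X 0 : MvPolynomial (Fin 1) k)}) (by
    rw [Ne, Ideal.span_singleton_eq_bot]
    exact X_ne_zero _)
  exact_mod_cast h

section block

variable {τ : Type} [Finite τ] {w : τ → ℤ} {f : MvPolynomial τ k} {N : ℕ}
  (hf : IsWeightedHomogeneous w f (N : ℤ)) (hN : 0 < N)
  (h1 : P (aff k (Fib (one f) k (fun _ => (1 : k)))))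

include hf hN h1

/-- The equation `f = u ^ N`, `u` a unit. -/
lemma fib_unit0 {E : Type} [CommRing E] [Algebra k E] [Algebra.FiniteType k E] (u : Eˣ)
    (h : P (aff k E)) : P (aff k (Fib (one f) E (fun _ => (u : E) ^ N))) := by
  have h2 : P (aff k (Fib (one f) E (fun _ => algebraMap k E (1 : k)))) :=
    iso0_symm hP (fibConst (one f) (fun _ => (1 : k))) (hP.prod _ _ h1 h)
  rw [map_one] at h2
  exact iso0_symm hP (fibScale hf u) h2

/-- The equation `f = c` over a Kummer algebra in which `c` is an `N`-th power. -/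
lemma fib_kum0 {E : Type} [CommRing E] [Algebra k E] [Algebra.FiniteType k E] (e : E)
    (h : P (aff k (Kum N e))) : P (aff k (Fib (one f) (Kum N e) (fun _ => kc k N e e))) := by
  have := kum_ft (k := k) hN e
  obtain ⟨u, hu⟩ := (kr_unit k hN : IsUnit (kr N e))
  have h3 := fib_unit0 hP hf hN h1 u h
  rw [hu, kr_pow (k := k)] at h3
  exact h3

/-- the open part of `f = e` -/
lemma fib_open0 {E : Type} [CommRing E] [Algebra k E] [Algebra.FiniteType k E] (e : E)
    (h : P (aff k (Kum N e))) :
    P (aff k (Localization.Away (fc (one f) (fun _ : Unit => e) e))) := by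
  apply of_kum0 hP hN
  have := kum_ft (k := k) hN e
  exact iso0_symm hP (fibKum (one f) (fun _ => e) N e) (fib_kum0 hP hf hN h1 e h)

/-- the fibre over zero -/
lemma fib_zero0 : P (aff k (Fib (one f) k (fun _ => (0 : k)))) := by
  -- the base `k[s]`
  let B : Type := MvPolynomial (Fin 1) k
  let s : B := X 0
  have h2 := fib_open0 hP hf hN h1 s (kum_line0 hP hN)
  -- the total space is an affine space
  have h3 : P (aff k (Fib (one f) B (fun _ => s))) := by
    have := Fintype.ofFinite τ
    have h4 : P (aff k (MvPolynomial τ k)) :=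
      p_poly hP.toBnd τ (iso_alg hP.toUni (MvPolynomial.isEmptyAlgEquiv k (Fin 0)) (hP.space 0))
    refine iso0_symm hP ⟨mkIso (fibLift (aeval fun _ => f) X fun i => ?_) (aeval (fv _ _)) ?_ ?_⟩ h4
    · rw [aeval_X, aeval_X_left_apply]
    · apply fib_ext
      · intro x
        rw [AlgHom.comp_apply, fibLift_fc]
        have h5 : ((aeval (fv (one f) (fun _ : Unit => s))).comp
            (aeval (fun _ : Fin 1 => f) : B →ₐ[k] MvPolynomial τ k)) = fc _ _ := by
          apply MvPolynomial.algHom_ext
          intro i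
          rw [AlgHom.comp_apply, aeval_X]
          have h6 := fib_rel (F := one f) (b := fun _ : Unit => s) ()
          rw [h6]
          congr 1
          rw [Subsingleton.elim i 0]
        exact DFunLike.congr_fun h5 x
      · intro t
        rw [AlgHom.comp_apply, fibLift_fv, aeval_X]
        rfl
    · apply MvPolynomial.algHom_ext
      intro t
      rw [AlgHom.comp_apply]
      exact (congrArg _ (aeval_X _ _)).trans (fibLift_fv _ _ _ _)
  have h4 : P (aff k (Fib (one f) B (fun _ => s) ⧸ Ideal.span {fc (one f) (fun _ : Unit => s) s})) :=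
    hP.closed _ _ (ft_aff sep) (triple_away _) h3 h2
  have h5 := iso0 hP (fibQuot (one f) (fun _ => s) s) h4
  have h6 : (fun _ : Unit => qm k s s) = fun _ : Unit => algebraMap k (B ⧸ Ideal.span {s}) (0 : k) := by
    funext _
    rw [qm_self, map_zero]
  rw [h6] at h5
  have h7 := iso0 hP (fibConst (one f) (fun _ : Unit => (0 : k)) (B := B ⧸ Ideal.span {s})) h5
  -- `k[s] / s = k`
  have h8 : Nonempty ((B ⧸ Ideal.span {s}) ≃ₐ[k] k) := by
    refine ⟨mkIso (qLift (aeval fun _ => (0 : k)) (aeval_X _ _)) (Algebra.ofId k _) ?_ ?_⟩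
    · apply q_ext
      intro x
      have h9 : (Algebra.ofId k (B ⧸ Ideal.span {s})).comp (aeval (fun _ : Fin 1 => (0 : k)) :
          B →ₐ[k] k) = qm k s := by
        apply MvPolynomial.algHom_ext
        intro i
        rw [AlgHom.comp_apply, aeval_X, map_zero, Subsingleton.elim i 0]
        exact (qm_self (k := k) s).symm
      exact DFunLike.congr_fun h9 x
    · ext
  obtain ⟨e8⟩ := h8
  exact iso0 hP ⟨(Algebra.TensorProduct.congr (AlgEquiv.refl) e8).trans
    (Algebra.TensorProduct.rid k k _)⟩ h7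

/-- One step: the equation `f = e` over `E`. -/
theorem fib_step0 {E : Type} [CommRing E] [Algebra k E] [Algebra.FiniteType k E] (e : E)
    (hq : P (aff k (E ⧸ Ideal.span {e}))) (hk : P (aff k (Kum N e))) :
    P (aff k (Fib (one f) E (fun _ => e))) := by
  refine hP.total _ _ (ft_aff sep) (triple_away (fc (one f) (fun _ : Unit => e) e)) ?_
    (fib_open0 hP hf hN h1 e hk)
  refine iso0_symm hP (fibQuot (one f) (fun _ => e) e) ?_
  have h6 : (fun _ : Unit => qm k e e) = fun _ : Unit => algebraMap k (E ⧸ Ideal.span {e}) (0 : k) := by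
    funext _
    rw [qm_self, map_zero]
  rw [h6]
  exact iso0_symm hP (fibConst (one f) (fun _ : Unit => (0 : k)))
    (hP.prod _ _ (fib_zero0 hP hf hN h1) hq)

end block

end

/-! ### good polynomials with their degree -/

/-- The polynomial `f` is, up to an isomorphism of polynomial rings, homogeneous of degree `N > 0`
for some integer weights of the variables, and the scheme `f = 1` has the property `P`. -/
def GdN (P : Sch k → Prop) {τ : Type} (f : MvPolynomial τ k) (N : ℕ) : Prop :=
  0 < N ∧ Finite τ ∧ ∃ (σ : Type) (_ : Finite σ) (e : MvPolynomial σ k ≃ₐ[k] MvPolynomial τ k)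
    (w : σ → ℤ) (g : MvPolynomial σ k), IsWeightedHomogeneous w g (N : ℤ) ∧
    e g = f ∧ P (aff k (Fib (one g) k (fun _ => (1 : k))))

section

variable {sep : Prop} {P : Sch k → Prop} (hP : Cls0 sep P)

include hP

lemma gdN_step {τ : Type} {f : MvPolynomial τ k} {N : ℕ} (hf : GdN P f N)
    {E : Type} [CommRing E] [Algebra k E] [Algebra.FiniteType k E] (x : E)
    (hq : P (aff k (E ⧸ Ideal.span {x}))) (hk : P (aff k (Kum N x))) :
      P (aff k (Fib (one f) E (fun _ => x))) := by
  obtain ⟨hN, hτ, σ, hσ, e, w, g, hg, rfl, h1⟩ := hf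
  exact iso0 hP (fibAuto (one g) e (fun _ => x)) (fib_step0 hP hg hN h1 x hq hk)

/-- two blocks over a base -/
theorem two_blocks {τ σ : Type} {f : MvPolynomial τ k} {g : MvPolynomial σ k} {M N : ℕ}
    (hf : GdN P f M) (hg : GdN P g N) {B : Type} [CommRing B] [Algebra k B]
    [Algebra.FiniteType k B] (u v : B)
    (hu : ringKrullDim (B ⧸ Ideal.span {u}) ≤ 0) (hv : ringKrullDim (B ⧸ Ideal.span {v}) ≤ 0)
    (hk : P (aff k (Kum M (kc k N v u)))) :
    P (aff k (Fib (one g) (Fib (one f) B (fun _ => u)) (fun _ => fc _ _ v))) := by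
  have hM := hf.1
  have hN := hg.1
  have hfin := hf.2.1
  refine gdN_step hP hg _ ?_ ?_
  · refine iso0_symm hP (fibQuot (one f) (fun _ => u) v) ?_
    have := kum_ft (k := k) hM (qm k v u)
    refine gdN_step hP hf _ (hP.zero _ ?_) (hP.zero _ ?_)
    · exact (ringKrullDim_quotient_le _).trans hv
    · exact (kum_dim hM _).trans hv
  · have := kum_ft (k := k) hN v
    refine iso0_symm hP (fibKum (one f) (fun _ => u) N v) ?_
    refine gdN_step hP hf _ ?_ hk
    have := kum_ft (k := k) hN (qm k u v)
    exact iso0_symm hP (kumQuot N v u) (hP.zero _ ((kum_dim hN _).trans hu))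

end

end Pool.Agent.V5helper94.RO
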