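import Pool.Agent.V5helper94.RO.Cls

/-!
# Compositions of two blocks of variables
-/

set_option autoImplicit false

open CategoryTheory AlgebraicGeometry MvPolynomial Pool.Agent.Y116.UV Pool.Agent.Z125.UN
  Pool.Agent.V5helper52.SF Pool.Agent.V5helper94.SV TensorProduct

namespace Pool.Agent.V5helper94.RO

variable {k : Type} [Field k]

/-! ### isomorphisms for two blocks -/

section iso

variable {σ τ σ' τ' : Type}

/-- block by block homomorphisms -/
noncomputable def sumHom (e : MvPolynomial σ k →ₐ[k] MvPolynomial τ k)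
    (e' : MvPolynomial σ' k →ₐ[k] MvPolynomial τ' k) :
    MvPolynomial (σ ⊕ σ') k →ₐ[k] MvPolynomial (τ ⊕ τ') k :=
  aeval (Sum.elim (fun s => rename Sum.inl (e (X s))) (fun s => rename Sum.inr (e' (X s))))

lemma sumHom_inl (e : MvPolynomial σ k →ₐ[k] MvPolynomial τ k)
    (e' : MvPolynomial σ' k →ₐ[k] MvPolynomial τ' k) (p : MvPolynomial σ k) :
    sumHom e e' (rename Sum.inl p) = rename Sum.inl (e p) := by
  have h : (sumHom e e').comp (rename Sum.inl) = (rename Sum.inl).comp e := by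
    apply MvPolynomial.algHom_ext
    intro s
    rw [AlgHom.comp_apply, rename_X, sumHom, aeval_X]
    rfl
  exact DFunLike.congr_fun h p

lemma sumHom_inr (e : MvPolynomial σ k →ₐ[k] MvPolynomial τ k)
    (e' : MvPolynomial σ' k →ₐ[k] MvPolynomial τ' k) (p : MvPolynomial σ' k) :
    sumHom e e' (rename Sum.inr p) = rename Sum.inr (e' p) := by
  have h : (sumHom e e').comp (rename Sum.inr) = (rename Sum.inr).comp e' := by
    apply MvPolynomial.algHom_ext
    intro s
    rw [AlgHom.comp_apply, rename_X, sumHom, aeval_X]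
    rfl
  exact DFunLike.congr_fun h p

lemma sumHom_comp (e : MvPolynomial σ k ≃ₐ[k] MvPolynomial τ k)
    (e' : MvPolynomial σ' k ≃ₐ[k] MvPolynomial τ' k) :
    (sumHom e.symm.toAlgHom e'.symm.toAlgHom).comp (sumHom e.toAlgHom e'.toAlgHom) =
      AlgHom.id k _ := by
  apply MvPolynomial.algHom_ext
  rintro (s | s)
  · rw [AlgHom.comp_apply, sumHom, sumHom, aeval_X]
    change sumHom e.symm.toAlgHom e'.symm.toAlgHom (rename Sum.inl (e (X s))) = _
    rw [sumHom_inl]
    change rename Sum.inl (e.symm (e (X s))) = _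
    rw [AlgEquiv.symm_apply_apply, rename_X]
    rfl
  · rw [AlgHom.comp_apply, sumHom, sumHom, aeval_X]
    change sumHom e.symm.toAlgHom e'.symm.toAlgHom (rename Sum.inr (e' (X s))) = _
    rw [sumHom_inr]
    change rename Sum.inr (e'.symm (e' (X s))) = _
    rw [AlgEquiv.symm_apply_apply, rename_X]
    rfl

/-- block by block isomorphisms -/
noncomputable def sumIso (e : MvPolynomial σ k ≃ₐ[k] MvPolynomial τ k)
    (e' : MvPolynomial σ' k ≃ₐ[k] MvPolynomial τ' k) :
    MvPolynomial (σ ⊕ σ') k ≃ₐ[k] MvPolynomial (τ ⊕ τ') k :=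
  AlgEquiv.ofAlgHom (sumHom e.toAlgHom e'.toAlgHom) (sumHom e.symm.toAlgHom e'.symm.toAlgHom)
    (sumHom_comp e.symm e'.symm) (sumHom_comp e e')

lemma sumIso_pair (e : MvPolynomial σ k ≃ₐ[k] MvPolynomial τ k)
    (e' : MvPolynomial σ' k ≃ₐ[k] MvPolynomial τ' k) (f : MvPolynomial σ k)
    (g : MvPolynomial σ' k) (Q : MvPolynomial (Unit ⊕ Unit) k) :
    sumIso e e' (aeval (pair f g) Q) = aeval (pair (e f) (e' g)) Q := by
  refine (map_aeval' (sumIso e e').toAlgHom (pair f g) Q).trans ?_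
  congr 2
  funext i
  rcases i with i | i
  · exact sumHom_inl e.toAlgHom e'.toAlgHom f
  · exact sumHom_inr e.toAlgHom e'.toAlgHom g

end iso

/-- the first coordinate -/
noncomputable def qu (I : Ideal (MvPolynomial (Unit ⊕ Unit) k)) : MvPolynomial (Unit ⊕ Unit) k ⧸ I :=
  Ideal.Quotient.mk _ (X (Sum.inl ()))

/-- the second coordinate -/
noncomputable def qv (I : Ideal (MvPolynomial (Unit ⊕ Unit) k)) : MvPolynomial (Unit ⊕ Unit) k ⧸ I :=
  Ideal.Quotient.mk _ (X (Sum.inr ()))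

/-! ### dimensions -/

lemma dim_unit (I : Ideal (MvPolynomial Unit k)) (hI : I ≠ ⊥) :
    ringKrullDim (MvPolynomial Unit k ⧸ I) ≤ 0 := by
  let e : MvPolynomial (Fin 1) k ≃ₐ[k] MvPolynomial Unit k := renameEquiv k (Equiv.ofUnique _ _)
  let J : Ideal (MvPolynomial (Fin 1) k) := I.comap e
  have hJ : J ≠ ⊥ := by
    intro h
    apply hI
    rw [eq_bot_iff]
    intro x hx
    have h1 : e.symm x ∈ J := by
      change e (e.symm x) ∈ I
      rwa [AlgEquiv.apply_symm_apply]
    rw [h, Ideal.mem_bot] at h1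
    rw [Ideal.mem_bot, ← e.apply_symm_apply x, h1, map_zero]
  have h := dim_quot (N := 0) J hJ
  have hs : Function.Surjective (Ideal.quotientMap I (e : MvPolynomial (Fin 1) k →+* _) le_rfl :
      (MvPolynomial (Fin 1) k ⧸ J) →+* (MvPolynomial Unit k ⧸ I)) :=
    Ideal.quotientMap_surjective e.surjective
  exact (ringKrullDim_le_of_surjective _ hs).trans (by exact_mod_cast h)

/-- A quotient of a polynomial ring in two variables in which one variable is zero. -/
lemma dim_proj (Q : MvPolynomial (Unit ⊕ Unit) k) (hQ : constantCoeff Q = 0) {D : Type}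
    [CommRing D] [Algebra k D] (θ : MvPolynomial (Unit ⊕ Unit) k →ₐ[k] D)
    (hθ : Function.Surjective θ) (h1 : θ (Q - 1) = 0)
    (ψ : MvPolynomial (Unit ⊕ Unit) k →ₐ[k] MvPolynomial Unit k)
    (hψ : ∀ p, constantCoeff (ψ p) = constantCoeff p) (φ : MvPolynomial Unit k →ₐ[k] D)
    (hφ : φ.comp ψ = θ) : ringKrullDim D ≤ 0 := by
  have h2 : φ (ψ Q - 1) = 0 := by
    have h := DFunLike.congr_fun hφ (Q - 1)
    rw [AlgHom.comp_apply, map_sub, map_one] at h
    rw [h, h1]
  have h3 : Ideal.span {ψ Q - 1} ≠ ⊥ := by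
    rw [Ne, Ideal.span_singleton_eq_bot]
    intro h
    have h4 := congrArg constantCoeff h
    rw [map_sub, map_one, hψ, hQ, map_zero, zero_sub, neg_eq_zero] at h4
    exact one_ne_zero h4
  refine (ringKrullDim_le_of_surjective (qLift φ h2).toRingHom ?_).trans (dim_unit _ h3)
  intro z
  obtain ⟨p, rfl⟩ := hθ z
  refine ⟨qm k _ (ψ p), ?_⟩
  change qLift φ h2 (qm k _ (ψ p)) = θ p
  rw [qLift_qm, ← hφ]
  rfl

lemma dim_qu (Q : MvPolynomial (Unit ⊕ Unit) k) (hQ : constantCoeff Q = 0) :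
    ringKrullDim ((MvPolynomial (Unit ⊕ Unit) k ⧸ Ideal.span {Q - 1}) ⧸
      Ideal.span {qu (Ideal.span {Q - 1})}) ≤ 0 := by
  refine dim_proj Q hQ ((qm k (qu (Ideal.span {Q - 1}))).comp (Ideal.Quotient.mkₐ k _)) ?_ ?_
    (aeval (Sum.elim (fun _ => 0) (fun _ => X ()))) ?_ (aeval fun _ => qm k (qu (Ideal.span {Q - 1})) (qv (Ideal.span {Q - 1}))) ?_
  · exact (qm_surj (k := k) _).comp Ideal.Quotient.mk_surjective
  · rw [AlgHom.comp_apply]
    have h : Ideal.Quotient.mkₐ k (Ideal.span {Q - 1}) (Q - 1) = 0 :=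
      Ideal.Quotient.eq_zero_iff_mem.mpr (Ideal.mem_span_singleton_self _)
    rw [h, map_zero]
  · intro p
    induction p using MvPolynomial.induction_on with
    | C a => simp
    | add p q hp hq => rw [map_add, map_add, map_add, hp, hq]
    | mul_X p t hp => rcases t with t | t <;> simp
  · apply MvPolynomial.algHom_ext
    rintro (i | i)
    · rw [AlgHom.comp_apply, aeval_X]
      change aeval _ (0 : MvPolynomial Unit k) = qm k (qu (Ideal.span {Q - 1})) (qu (Ideal.span {Q - 1}))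
      rw [map_zero, qm_self]
    · rw [AlgHom.comp_apply, aeval_X]
      exact aeval_X _ _

lemma dim_qv (Q : MvPolynomial (Unit ⊕ Unit) k) (hQ : constantCoeff Q = 0) :
    ringKrullDim ((MvPolynomial (Unit ⊕ Unit) k ⧸ Ideal.span {Q - 1}) ⧸
      Ideal.span {qv (Ideal.span {Q - 1})}) ≤ 0 := by
  refine dim_proj Q hQ ((qm k (qv (Ideal.span {Q - 1}))).comp (Ideal.Quotient.mkₐ k _)) ?_ ?_
    (aeval (Sum.elim (fun _ => X ()) (fun _ => 0))) ?_ (aeval fun _ => qm k (qv (Ideal.span {Q - 1})) (qu (Ideal.span {Q - 1}))) ?_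
  · exact (qm_surj (k := k) _).comp Ideal.Quotient.mk_surjective
  · rw [AlgHom.comp_apply]
    have h : Ideal.Quotient.mkₐ k (Ideal.span {Q - 1}) (Q - 1) = 0 :=
      Ideal.Quotient.eq_zero_iff_mem.mpr (Ideal.mem_span_singleton_self _)
    rw [h, map_zero]
  · intro p
    induction p using MvPolynomial.induction_on with
    | C a => simp
    | add p q hp hq => rw [map_add, map_add, map_add, hp, hq]
    | mul_X p t hp => rcases t with t | t <;> simp
  · apply MvPolynomial.algHom_ext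
    rintro (i | i)
    · rw [AlgHom.comp_apply, aeval_X]
      exact aeval_X _ _
    · rw [AlgHom.comp_apply, aeval_X]
      change aeval _ (0 : MvPolynomial Unit k) = qm k (qv (Ideal.span {Q - 1})) (qv (Ideal.span {Q - 1}))
      rw [map_zero, qm_self]

/-! ### the Kummer covering of a closed subscheme of the plane -/

section lift

variable {I : Ideal (MvPolynomial (Unit ⊕ Unit) k)} {D : Type} [CommRing D] [Algebra k D]

/-- the universal property -/
noncomputable def qbLift (x y : D)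
    (h : ∀ p ∈ I, aeval (Sum.elim (fun _ => x) (fun _ => y)) p = 0) :
    (MvPolynomial (Unit ⊕ Unit) k ⧸ I) →ₐ[k] D :=
  Ideal.Quotient.liftₐ I (aeval (Sum.elim (fun _ => x) (fun _ => y))) h

lemma qbLift_qu (x y : D) (h : ∀ p ∈ I, aeval (Sum.elim (fun _ => x) (fun _ => y)) p = 0) :
    qbLift x y h (qu I) = x := aeval_X _ _

lemma qbLift_qv (x y : D) (h : ∀ p ∈ I, aeval (Sum.elim (fun _ => x) (fun _ => y)) p = 0) :
    qbLift x y h (qv I) = y := aeval_X _ _

lemma qb_ext {g h : (MvPolynomial (Unit ⊕ Unit) k ⧸ I) →ₐ[k] D} (h1 : g (qu I) = h (qu I))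
    (h2 : g (qv I) = h (qv I)) : g = h := by
  apply Ideal.Quotient.algHom_ext
  apply MvPolynomial.algHom_ext
  rintro (⟨⟩ | ⟨⟩)
  · exact h1
  · exact h2

lemma qb_rel (φ : (MvPolynomial (Unit ⊕ Unit) k ⧸ I) →ₐ[k] D) (p : MvPolynomial (Unit ⊕ Unit) k)
    (hp : p ∈ I) : aeval (Sum.elim (fun _ => φ (qu I)) (fun _ => φ (qv I))) p = 0 := by
  have h1 : aeval (Sum.elim (fun _ => φ (qu I)) (fun _ => φ (qv I))) =
      φ.comp (Ideal.Quotient.mkₐ k I) := by
    apply MvPolynomial.algHom_ext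
    rintro (⟨⟩ | ⟨⟩)
    · rw [aeval_X]
      rfl
    · rw [aeval_X]
      rfl
  rw [h1, AlgHom.comp_apply]
  have h : Ideal.Quotient.mkₐ k I p = 0 := Ideal.Quotient.eq_zero_iff_mem.mpr hp
  rw [h, map_zero]

lemma aeval_pw (x y : D) (M N : ℕ) (p : MvPolynomial (Unit ⊕ Unit) k) :
    aeval (Sum.elim (fun _ => x) (fun _ => y)) (aeval (pw k M N) p) =
      aeval (Sum.elim (fun _ => x ^ M) (fun _ => y ^ N)) p := by
  rw [map_aeval']
  congr 2
  funext i
  rcases i with i | i
  · change aeval _ (X (Sum.inl ()) ^ M) = x ^ M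
    rw [map_pow, aeval_X]
    rfl
  · change aeval _ (X (Sum.inr ()) ^ N) = y ^ N
    rw [map_pow, aeval_X]
    rfl

lemma pre_pw (x y : D) (M N : ℕ) : (∀ p ∈ pre (pw k M N) I,
    aeval (Sum.elim (fun _ => x) (fun _ => y)) p = 0) ↔
    ∀ p ∈ I, aeval (Sum.elim (fun _ => x ^ M) (fun _ => y ^ N)) p = 0 := by
  constructor
  · intro h p hp
    rw [← aeval_pw]
    exact h _ (Ideal.mem_map_of_mem _ hp)
  · intro h
    have h1 : pre (pw k M N) I ≤ RingHom.ker (aeval (Sum.elim (fun _ => x) (fun _ => y)) :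
        MvPolynomial (Unit ⊕ Unit) k →ₐ[k] D) := by
      rw [pre, Ideal.map_le_iff_le_comap]
      intro p hp
      change aeval _ (aeval (pw k M N) p) = 0
      rw [aeval_pw]
      exact h p hp
    exact fun p hp => h1 hp

end lift

/-- **The Kummer covering of a closed subscheme of the plane.** -/
theorem twoKum (I : Ideal (MvPolynomial (Unit ⊕ Unit) k)) {M N : ℕ} (hM : 0 < M) (hN : 0 < N) :
    Nonempty (Kum M (kc k N (qv I) (qu I)) ≃ₐ[k]
      Kum 1 (kc k 1 (qv (pre (pw k M N) I)) (qu (pre (pw k M N) I)))) := by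
  let I' := pre (pw k M N) I
  let K₁ := Kum N (qv I)
  let c : K₁ := kc k N (qv I) (qu I)
  let K := Kum M c
  let K₁' := Kum 1 (qv I')
  let c' : K₁' := kc k 1 (qv I') (qu I')
  let K' := Kum 1 c'
  -- the roots and the coordinates
  let ι : (MvPolynomial (Unit ⊕ Unit) k ⧸ I) →ₐ[k] K := (kc k M c).comp (kc k N (qv I))
  let s : K := kr M c
  let t : K := kc k M c (kr N (qv I))
  have hs : s ^ M = ι (qu I) := kr_pow
  have ht : t ^ N = ι (qv I) := by
    change kc k M c (kr N (qv I)) ^ N = _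
    rw [← map_pow, kr_pow (k := k)]
    rfl
  have hsu : IsUnit s := kr_unit k hM
  have htu : IsUnit t := (kr_unit k hN).map _
  let ι' : (MvPolynomial (Unit ⊕ Unit) k ⧸ I') →ₐ[k] K' := (kc k 1 c').comp (kc k 1 (qv I'))
  let s' : K' := ι' (qu I')
  let t' : K' := ι' (qv I')
  have hs' : kr 1 c' = s' := by
    have h := kr_pow (k := k) (N := 1) (c := c')
    rwa [pow_one] at h
  have ht' : kc k 1 c' (kr 1 (qv I')) = t' := by
    have h := kr_pow (k := k) (N := 1) (c := qv I')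
    rw [pow_one] at h
    rw [h]
    rfl
  have hsu' : IsUnit s' := hs' ▸ kr_unit k one_pos
  have htu' : IsUnit t' := ht' ▸ (kr_unit k one_pos).map _
  -- from `K` to `K'`
  let f0 : (MvPolynomial (Unit ⊕ Unit) k ⧸ I) →ₐ[k] K' := qbLift (s' ^ M) (t' ^ N)
    ((pre_pw s' t' M N).mp (qb_rel ι'))
  have hf0u : f0 (qu I) = s' ^ M := qbLift_qu _ _ _
  have hf0v : f0 (qv I) = t' ^ N := qbLift_qv _ _ _
  let f1 : K₁ →ₐ[k] K' := kLift f0 t' hf0v.symm (by rw [hf0v]; exact htu'.pow N)
  have hf1c : ∀ y, f1 (kc k N _ y) = f0 y := fun y => kLift_kc _ _ _ _ y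
  have hf1r : f1 (kr N _) = t' := kLift_kr _ _ _ _
  let f : K →ₐ[k] K' := kLift f1 s' (by rw [hf1c, hf0u]) (by rw [hf1c, hf0u]; exact hsu'.pow M)
  have hfc : ∀ y, f (kc k M c y) = f1 y := fun y => kLift_kc _ _ _ _ y
  have hfr : f s = s' := kLift_kr _ _ _ _
  -- from `K'` to `K`
  let g0 : (MvPolynomial (Unit ⊕ Unit) k ⧸ I') →ₐ[k] K := qbLift s t ((pre_pw s t M N).mpr (by
    rw [hs, ht]
    exact qb_rel ι))
  have hg0u : g0 (qu I') = s := qbLift_qu _ _ _
  have hg0v : g0 (qv I') = t := qbLift_qv _ _ _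
  let g1 : K₁' →ₐ[k] K := kLift g0 t (by rw [pow_one, hg0v]) (by rw [hg0v]; exact htu)
  have hg1c : ∀ y, g1 (kc k 1 _ y) = g0 y := fun y => kLift_kc _ _ _ _ y
  have hg1r : g1 (kr 1 _) = t := kLift_kr _ _ _ _
  let g : K' →ₐ[k] K := kLift g1 s (by rw [pow_one, hg1c, hg0u]) (by rw [hg1c, hg0u]; exact hsu)
  have hgc : ∀ y, g (kc k 1 c' y) = g1 y := fun y => kLift_kc _ _ _ _ y
  have hgr : g (kr 1 c') = s := kLift_kr _ _ _ _
  have hgs : g s' = s := by rw [← hs', hgr]
  have hgt : g t' = t := by rw [← ht', hgc, hg1r]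
  refine ⟨mkIso f g ?_ ?_⟩
  · apply kum_ext
    · intro y
      rw [AlgHom.comp_apply, hfc]
      have h : g.comp f1 = kc k M c := by
        apply kum_ext
        · intro z
          rw [AlgHom.comp_apply, hf1c]
          have h2 : g.comp f0 = ι := by
            apply qb_ext
            · rw [AlgHom.comp_apply, hf0u, map_pow, hgs, hs]
            · rw [AlgHom.comp_apply, hf0v, map_pow, hgt, ht]
          exact DFunLike.congr_fun h2 z
        · rw [AlgHom.comp_apply, hf1r, hgt]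
      exact DFunLike.congr_fun h y
    · rw [AlgHom.comp_apply]
      change g (f s) = s
      rw [hfr, hgs]
  · apply kum_ext
    · intro y
      rw [AlgHom.comp_apply, hgc]
      have h : f.comp g1 = kc k 1 c' := by
        apply kum_ext
        · intro z
          rw [AlgHom.comp_apply, hg1c]
          have h2 : f.comp g0 = ι' := by
            apply qb_ext
            · rw [AlgHom.comp_apply, hg0u, hfr]
            · rw [AlgHom.comp_apply, hg0v]
              change f (kc k M c (kr N (qv I))) = t'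
              rw [hfc, hf1r]
          exact DFunLike.congr_fun h2 z
        · rw [AlgHom.comp_apply, hg1r, ht']
          change f (kc k M c (kr N (qv I))) = t'
          rw [hfc, hf1r]
      exact DFunLike.congr_fun h y
    · rw [AlgHom.comp_apply, hgr, hfr, ← hs']
      rfl

section

variable {sep : Prop} {P : Sch k → Prop} (hP : Cls0 sep P)

include hP

lemma fib_level0 {τ : Type} [Finite τ] (f : MvPolynomial τ k) (c : k) :
    P (aff k (Fib (one f) k (fun _ => c))) ↔ P (aff k (MvPolynomial τ k ⧸ Ideal.span {f - C c})) := by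
  have h : Nonempty (Fib (one f) k (fun _ => c) ≃ₐ[k] MvPolynomial τ k ⧸ Ideal.span {f - C c}) := by
    have h1 : Ideal.span (Set.range fun i : Unit => map (algebraMap k k) (one f i) - C c) =
        Ideal.span {f - C c} := by
      have h2 : (fun i : Unit => map (algebraMap k k) (one f i) - C c) = fun _ => f - C c := by
        funext i
        rw [Algebra.algebraMap_self, MvPolynomial.map_id]
      rw [h2, Set.range_const]
    exact ⟨Ideal.quotientEquivAlgOfEq k h1⟩
  exact ⟨iso0 hP h, iso0_symm hP h⟩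

omit hP in
lemma cc_pw (Q : MvPolynomial (Unit ⊕ Unit) k) {M N : ℕ} (hM : 0 < M) (hN : 0 < N) :
    constantCoeff (aeval (pw k M N) Q) = constantCoeff Q := by
  induction Q using MvPolynomial.induction_on with
  | C a => simp
  | add p q hp hq => rw [map_add, map_add, map_add, hp, hq]
  | mul_X p t hp => rcases t with t | t <;> simp [pw, hM.ne', hN.ne']

omit hP in
lemma cc_wh {τ : Type} {w : τ → ℤ} {Q : MvPolynomial τ k} {L : ℕ} (hL : 0 < L)
    (hQ : IsWeightedHomogeneous w Q (L : ℤ)) : constantCoeff Q = 0 := by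
  by_contra h
  have h1 := hQ (d := 0) h
  rw [map_zero] at h1
  omega

/-- The quotients of the Kummer covering. -/
lemma dim_kum_quot {B : Type} [CommRing B] [Algebra k B] [Algebra.FiniteType k B] {N : ℕ}
    (hN : 0 < N) (c x : B) (h : ringKrullDim (B ⧸ Ideal.span {x}) ≤ 0) :
    P (aff k (Kum N c ⧸ Ideal.span {kc k N c x})) := by
  have h3 := kum_ft (k := k) hN (qm k x c)
  have h4 := kum_ft (k := k) hN c
  exact iso0_symm hP (kumQuot N c x) (hP.zero _ ((kum_dim hN _).trans h))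

/-- the open stratum -/
lemma stratum (I : Ideal (MvPolynomial (Unit ⊕ Unit) k)) {M N : ℕ} (hM : 0 < M) (hN : 0 < N)
    (hu : ringKrullDim ((MvPolynomial (Unit ⊕ Unit) k ⧸ pre (pw k M N) I) ⧸
      Ideal.span {qu (pre (pw k M N) I)}) ≤ 0)
    (hv : ringKrullDim ((MvPolynomial (Unit ⊕ Unit) k ⧸ pre (pw k M N) I) ⧸
      Ideal.span {qv (pre (pw k M N) I)}) ≤ 0)
    (h : P (aff k (MvPolynomial (Unit ⊕ Unit) k ⧸ pre (pw k M N) I))) :
    P (aff k (Kum M (kc k N (qv I) (qu I)))) := by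
  have h1 := kum_ft (k := k) one_pos (qv (pre (pw k M N) I))
  have h2 := kum_ft (k := k) one_pos (kc k 1 (qv (pre (pw k M N) I)) (qu (pre (pw k M N) I)))
  refine iso0_symm hP (twoKum I hM hN) (kum_one0 hP _ (kum_one0 hP _ h (hP.zero _ hv)) ?_)
  exact dim_kum_quot hP one_pos _ _ hu

/-- **Preimages.** The preimage of a closed subscheme of the plane under `(f, g)`. -/
theorem pre_two {τ σ : Type} {f : MvPolynomial τ k} {g : MvPolynomial σ k} {M N : ℕ}
    (hf : GdN P f M) (hg : GdN P g N) (I : Ideal (MvPolynomial (Unit ⊕ Unit) k))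
    (hu : ringKrullDim ((MvPolynomial (Unit ⊕ Unit) k ⧸ I) ⧸ Ideal.span {qu I}) ≤ 0)
    (hv : ringKrullDim ((MvPolynomial (Unit ⊕ Unit) k ⧸ I) ⧸ Ideal.span {qv I}) ≤ 0)
    (hu' : ringKrullDim ((MvPolynomial (Unit ⊕ Unit) k ⧸ pre (pw k M N) I) ⧸
      Ideal.span {qu (pre (pw k M N) I)}) ≤ 0)
    (hv' : ringKrullDim ((MvPolynomial (Unit ⊕ Unit) k ⧸ pre (pw k M N) I) ⧸
      Ideal.span {qv (pre (pw k M N) I)}) ≤ 0)
    (hk : P (aff k (MvPolynomial (Unit ⊕ Unit) k ⧸ pre (pw k M N) I))) :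
    P (aff k (MvPolynomial (τ ⊕ σ) k ⧸ pre (pair f g) I)) := by
  have h1 := hf.2.1
  have h2 := hg.2.1
  have h3 := two_blocks hP hf hg (qu I) (qv I) hu hv (stratum hP I hf.1 hg.1 hu' hv' hk)
  have h4 := iso0_symm hP (fibTwo (one f) (fun _ => qu I) (one g) (fun _ => qv I)) h3
  have h5 := fibPre (pair f g) I
  have h6 : (fun i => Ideal.Quotient.mk I (X i) :
      Unit ⊕ Unit → MvPolynomial (Unit ⊕ Unit) k ⧸ I) =
      Sum.elim (fun _ => qu I) (fun _ => qv I) := by
    funext i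
    rcases i with i | i <;> rfl
  rw [h6] at h5
  exact iso0 hP h5 h4

/-- the scheme `Q(f, g) = 1` -/
theorem level_comp {τ σ : Type} {f : MvPolynomial τ k} {g : MvPolynomial σ k} {M N : ℕ}
    (hf : GdN P f M) (hg : GdN P g N) (Q : MvPolynomial (Unit ⊕ Unit) k)
    (hQ : constantCoeff Q = 0)
    (hk : P (aff k (MvPolynomial (Unit ⊕ Unit) k ⧸ Ideal.span {aeval (pw k M N) Q - 1}))) :
    P (aff k (Fib (one (aeval (pair f g) Q)) k (fun _ => (1 : k)))) := by
  have h1 := hf.2.1
  have h2 := hg.2.1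
  rw [fib_level0 hP, C_1]
  have hQ' := (cc_pw Q hf.1 hg.1).trans hQ
  have h0 : pre (pw k M N) (Ideal.span {Q - 1}) = Ideal.span {aeval (pw k M N) Q - 1} := by
    rw [pre_span, map_sub, map_one]
  have h3 := pre_two hP hf hg (Ideal.span {Q - 1}) (dim_qu Q hQ) (dim_qv Q hQ)
    (by rw [h0]; exact dim_qu _ hQ') (by rw [h0]; exact dim_qv _ hQ') (by rw [h0]; exact hk)
  rw [pre_span, map_sub, map_one] at h3
  exact h3

/-- **Compositions of two blocks.** -/
theorem gdN_comp {τ σ : Type} {f : MvPolynomial τ k} {g : MvPolynomial σ k} {M N : ℕ}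
    (hf : GdN P f M) (hg : GdN P g N) (Q : MvPolynomial (Unit ⊕ Unit) k) (x y : ℤ) (L : ℕ)
    (hL : 0 < L)
    (hQ : IsWeightedHomogeneous (Sum.elim (fun _ => x * M) (fun _ => y * N)) Q (L : ℤ))
    (hk : P (aff k (MvPolynomial (Unit ⊕ Unit) k ⧸ Ideal.span {aeval (pw k M N) Q - 1}))) :
    GdN P (aeval (pair f g) Q) L := by
  obtain ⟨hM, hτ, ρ, hρ, e, w, f', hw, rfl, h1⟩ := hf
  obtain ⟨hN, hσ, ρ', hρ', e', w', g', hw', rfl, h1'⟩ := hg
  refine ⟨hL, inferInstance, _, inferInstance, sumIso e e',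
    Sum.elim (fun s => x * w s) (fun s => y * w' s), aeval (pair f' g') Q, ?_,
    sumIso_pair e e' f' g' Q, ?_⟩
  · have h := wh_comp (w := Sum.elim (fun s => x * w s) (fun s => y * w' s)) (c := 1)
      (a := Sum.elim (fun _ => x * (M : ℤ)) (fun _ => y * (N : ℤ))) (F := pair f' g') ?_ hQ
    · rwa [mul_one] at h
    rintro (i | i)
    · rw [mul_one]
      exact wh_rename _ (wh_scale x hw)
    · rw [mul_one]
      exact wh_rename _ (wh_scale y hw')
  · exact level_comp hP ⟨hM, hρ, ρ, hρ, AlgEquiv.refl, w, f', hw, rfl, h1⟩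
      ⟨hN, hρ', ρ', hρ', AlgEquiv.refl, w', g', hw', rfl, h1'⟩ Q (cc_wh hL hQ) hk

/-- homogeneous polynomials -/
theorem gdN_good {τ : Type} [Finite τ] (f : MvPolynomial τ k) (w : τ → ℤ) {N : ℕ} (hN : 0 < N)
    (hf : IsWeightedHomogeneous w f (N : ℤ))
    (h : P (aff k (MvPolynomial τ k ⧸ Ideal.span {f - 1}))) : GdN P f N := by
  refine ⟨hN, inferInstance, _, inferInstance, AlgEquiv.refl, w, f, hf, rfl, ?_⟩
  rw [fib_level0 hP, C_1]
  exact h

/-- variables -/
theorem gdN_var : GdN P (X () : MvPolynomial Unit k) 1 := by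
  refine gdN_good hP _ (fun _ => 1) one_pos (isWeightedHomogeneous_X k _ _) (hP.zero _ ?_)
  refine dim_unit _ ?_
  rw [Ne, Ideal.span_singleton_eq_bot]
  intro h
  have h1 := congrArg constantCoeff h
  simp at h1

omit hP in
/-- isomorphisms of polynomial rings -/
theorem gdN_auto {τ σ : Type} (hσ : Finite σ) {f : MvPolynomial τ k} {N : ℕ} (hf : GdN P f N)
    (e : MvPolynomial τ k ≃ₐ[k] MvPolynomial σ k) : GdN P (e f) N := by
  obtain ⟨hN, _, σ', hσ', e', w, g, hg, rfl, h1⟩ := hf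
  exact ⟨hN, hσ, σ', hσ', e'.trans e, w, g, hg, rfl, h1⟩

/-- the level sets -/
theorem gdN_level {τ : Type} {f : MvPolynomial τ k} {N : ℕ} (hf : GdN P f N) (c : k) :
    P (aff k (MvPolynomial τ k ⧸ Ideal.span {f - C c})) := by
  have := hf.2.1
  rw [← fib_level0 hP]
  have h0 : ringKrullDim k ≤ 0 := by rw [ringKrullDim_eq_zero_of_field]
  have := kum_ft (k := k) hf.1 c
  exact gdN_step hP hf c (hP.zero _ ((ringKrullDim_quotient_le _).trans h0))
    (hP.zero _ ((kum_dim hf.1 c).trans h0))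

/-- the complement of the zero set -/
theorem gdN_compl {τ : Type} {f : MvPolynomial τ k} {N : ℕ} (hf : GdN P f N) :
    P (aff k (Localization.Away f)) := by
  have := hf.2.1
  have := Fintype.ofFinite τ
  have h4 : P (aff k (MvPolynomial τ k)) :=
    p_poly hP.toBnd τ
      (iso_alg hP.toUni (MvPolynomial.isEmptyAlgEquiv k (Fin 0)) (hP.space 0))
  have := away_ft (k := k) f
  refine hP.opened _ _ (ft_aff sep) (triple_away f) ?_ h4
  have h := gdN_level hP hf 0
  rwa [C_0, sub_zero] at h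

/-- from `f = 0` to Jouanolou's bundle over the complement -/
lemma to_jou0 {A : Type} [CommRing A] [Algebra k A] [Algebra.FiniteType k A]
    {m : ℕ} (f : Fin m → A) (hA : P (aff k A)) (hf : P (aff k (A ⧸ Ideal.span (Set.range f)))) :
    P (aff k (Jou f)) := by
  refine hP.bundle A m f (opn (aff k A) (neOpen k f)) (opnMap (aff k A) (neOpen k f))
    inferInstance (range_opnMap _ _) ?_
  refine hP.opened _ (opnMap (aff k A) (neOpen k f)) (ft_aff sep)
    (triple_ideal (Ideal.span (Set.range f)) _ _ inferInstance ?_) hf hA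
  rw [range_opnMap]
  ext x
  change (∃ l, f l ∉ x.asIdeal) ↔ ∃ g ∈ Ideal.span (Set.range f), g ∉ x.asIdeal
  constructor
  · rintro ⟨l, hl⟩
    exact ⟨f l, Ideal.subset_span ⟨l, rfl⟩, hl⟩
  · rintro ⟨g, hg, hgx⟩
    by_contra hcon
    push Not at hcon
    refine hgx ((Ideal.span_le.mpr ?_ : Ideal.span (Set.range f) ≤ x.asIdeal) hg)
    rintro _ ⟨l, rfl⟩
    exact hcon l

/-- linear polynomials in some of the variables -/
theorem gdN_lin {N : ℕ} {σ : Type} [Finite σ] (g : Fin N → MvPolynomial σ k)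
    (h : P (aff k (MvPolynomial σ k ⧸ Ideal.span (Set.range g)))) : GdN P (lin g) 1 := by
  have := Fintype.ofFinite σ
  have h4 : P (aff k (MvPolynomial σ k)) :=
    p_poly hP.toBnd σ
      (iso_alg hP.toUni (MvPolynomial.isEmptyAlgEquiv k (Fin 0)) (hP.space 0))
  exact gdN_good hP _ _ one_pos (lin_wh g) (iso0_symm hP (linJou g) (to_jou0 hP g h4 h))

end

end Pool.Agent.V5helper94.RO
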