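import Pool.Agent.V5helper94.SV.Lin
import Pool.Agent.V5helper94.OB.Main

/-!
# Schemes which are generated by Fermat curves: definitions
-/

set_option autoImplicit false

open CategoryTheory CategoryTheory.Limits AlgebraicGeometry MvPolynomial Pool.Agent.Y116.UV
  Pool.Agent.Z125.UN Pool.Agent.V5helper77.GW Pool.Agent.V5helper77.OP Pool.Agent.V5helper94.SV
  Pool.Agent.V5helper94.OB Pool.Agent.V5helper52.SF NumberField IsDedekindDomain
open scoped TensorProduct

universe v u

namespace Pool.Agent.V5helper94.RO

/-! ### classes of schemes -/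

/-- The schemes over `k` which are generated by the class `G`: the smallest class of schemes over `k`
with the following properties.

* `gen`: it contains the schemes of `G`;
* `zero`: it contains the affine schemes of finite type of dimension at most zero;
* `iso`: it is stable under isomorphisms;
* `total`, `opened`, `closed`: if two of the three schemes `X` (separated, of finite type), a closed
  subscheme of `X`, and its open complement are in the class, then so is the third;
* `bundle`, `jouanolou`: an open subscheme `U = {f ≠ 0}` of `Spec A` is in the class if and only if the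
  affine bundle `Spec A[w] / (∑ f_l w_l - 1)` over `U` is;
* `torus`: if `X × 𝔾_m` is in the class, `X` affine, then `X` is in the class;
* `prod`: products of affine schemes of the class are in the class;
* `free`: if `Y → X` is a finite covering of affine schemes such that the algebra of `Y` is free of
  rank `n > 0` over the algebra of `X`, and if `Y` is in the class, then so is `X`. -/
inductive From (k : Type) [Field k] (G : Sch k → Prop) : Sch k → Prop
  | gen {X : Sch k} (h : G X) : From k G X
  | zero (A : Type) [CommRing A] [Algebra k A] [Algebra.FiniteType k A] (h : ringKrullDim A ≤ 0) :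
      From k G (aff k A)
  | iso {X Y : Sch k} (hX : FT True X) (e : Nonempty (X ≅ Y)) (h : From k G X) : From k G Y
  | total {Z X U : Sch k} (i : Z ⟶ X) (j : U ⟶ X) (hX : FT True X) (ht : IsTriple i j)
      (hZ : From k G Z) (hU : From k G U) : From k G X
  | opened {Z X U : Sch k} (i : Z ⟶ X) (j : U ⟶ X) (hX : FT True X) (ht : IsTriple i j)
      (hZ : From k G Z) (h : From k G X) : From k G U
  | closed {Z X U : Sch k} (i : Z ⟶ X) (j : U ⟶ X) (hX : FT True X) (ht : IsTriple i j)
      (h : From k G X) (hU : From k G U) : From k G Z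
  | bundle (A : Type) [CommRing A] [Algebra k A] [Algebra.FiniteType k A] (m : ℕ)
      (f : Fin m → A) (U : Sch k) (hU : IsLocus f U) (h : From k G U) : From k G (jouScheme k f)
  | jouanolou (A : Type) [CommRing A] [Algebra k A] [Algebra.FiniteType k A] (m : ℕ)
      (f : Fin m → A) (U : Sch k) (hU : IsLocus f U) (h : From k G (jouScheme k f)) : From k G U
  | torus (A : Type) [CommRing A] [Algebra k A] [Algebra.FiniteType k A]
      (h : From k G (aff k (LaurentPolynomial A))) : From k G (aff k A)
  | prod (A B : Type) [CommRing A] [Algebra k A] [Algebra.FiniteType k A] [CommRing B]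
      [Algebra k B] [Algebra.FiniteType k B] (hA : From k G (aff k A))
      (hB : From k G (aff k B)) : From k G (aff k (A ⊗[k] B))
  | free (A B : Type) [CommRing A] [Algebra k A] [Algebra.FiniteType k A] [CommRing B]
      [Algebra k B] [Algebra A B] [IsScalarTower k A B] (n : ℕ) (hn : 0 < n)
      (hb : Nonempty (B ≃ₗ[A] (Fin n → A))) (h : From k G (aff k B)) : From k G (aff k A)

section

variable {k : Type} [Field k]

/-- The polynomial `α u ^ m + β v ^ n`. -/
noncomputable def diag (α β : k) (m n : ℕ) : MvPolynomial (Unit ⊕ Unit) k :=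
  C α * X (Sum.inl ()) ^ m + C β * X (Sum.inr ()) ^ n

/-- The affine curve `α s ^ m + β t ^ n = 1`. -/
noncomputable def fermat (k : Type) [Field k] (α β : k) (m n : ℕ) : Sch k :=
  aff k (MvPolynomial (Unit ⊕ Unit) k ⧸ Ideal.span {diag α β m n - 1})

/-- `X` is the Fermat curve `α s ^ a + β t ^ b = 1`, `α β ≠ 0`, with exponents `a, b ≥ 1` which
divide `N`. -/
def FermatN (k : Type) [Field k] (N : ℕ) (X : Sch k) : Prop :=
  ∃ (α β : k) (a b : ℕ), α ≠ 0 ∧ β ≠ 0 ∧ 0 < a ∧ 0 < b ∧ a ∣ N ∧ b ∣ N ∧ X = fermat k α β a b

/-- `X` is a Fermat curve `α s ^ a + β t ^ b = 1`, `α β ≠ 0`, `a, b ≥ 1`. -/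
def IsFermat (k : Type) [Field k] (X : Sch k) : Prop :=
  ∃ (α β : k) (a b : ℕ), α ≠ 0 ∧ β ≠ 0 ∧ 0 < a ∧ 0 < b ∧ X = fermat k α β a b

end

/-! ### polynomials with separated variables -/

/-- Two polynomials in disjoint sets of variables. -/
noncomputable def pair {k : Type} [Field k] {τ τ' : Type} (f : MvPolynomial τ k) (g : MvPolynomial τ' k) :
    Unit ⊕ Unit → MvPolynomial (τ ⊕ τ') k :=
  Sum.elim (fun _ => rename Sum.inl f) (fun _ => rename Sum.inr g)

/-- The coordinates `u ^ M`, `v ^ N`. -/
noncomputable def pw (k : Type) [Field k] (M N : ℕ) : Unit ⊕ Unit → MvPolynomial (Unit ⊕ Unit) k :=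
  Sum.elim (fun _ => X (Sum.inl ()) ^ M) (fun _ => X (Sum.inr ()) ^ N)


/-- Polynomials `f` with separated variables and their degrees `M` (homogeneous of degree `M > 0` for
integer weights of the variables), for a class `G` of schemes over `k`: the smallest class such that

* `good`: it contains the pair `(f, M)` if `f` is homogeneous of degree `M > 0` for some integer weights
  of the variables and the scheme `f = 1` is generated by `G`; for example `f` a variable, `M = 1`;
* `lin`: it contains `(∑ x_j g_j(y), 1)` if the scheme `g_1 = ⋯ = g_n = 0` is generated by `G`;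
* `auto`: it is stable under isomorphisms of polynomial rings;
* `pow`: it contains `(α f ^ a, a M)` if it contains `(f, M)`, `a ≥ 1`;
* `mul`, `add`, for `(f, M)`, `(g, N)` in the class, in disjoint sets of variables, `a, b ≥ 1`: it
  contains `f ^ a g ^ b` with the degree `gcd (a M, b N)`, and `α f ^ a + β g ^ b` with the degree
  `lcm (a M, b N)` if the curve `α s ^ (a M) + β t ^ (b N) = 1` is generated by `G`;
* `comp`, for `(f, M)`, `(g, N)` in the class, in disjoint sets of variables: it contains
  `(Q(f, g), L)` if `Q(u, v)` is homogeneous of degree `L > 0` for the weights `x M`, `y N` of `u`, `v`, where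
  `x`, `y` are integers, and the curve `Q(s ^ M, t ^ N) = 1` is generated by `G`. -/
inductive Separated (k : Type) [Field k] (G : Sch k → Prop) :
    ∀ {τ : Type}, MvPolynomial τ k → ℕ → Prop
  | good {τ : Type} [Finite τ] (f : MvPolynomial τ k) (w : τ → ℤ) {M : ℕ} (hM : 0 < M)
      (hf : IsWeightedHomogeneous w f (M : ℤ))
      (h : From k G (aff k (MvPolynomial τ k ⧸ Ideal.span {f - 1}))) : Separated k G f M
  | lin {n : ℕ} {σ : Type} [Finite σ] (g : Fin n → MvPolynomial σ k)
      (h : From k G (aff k (MvPolynomial σ k ⧸ Ideal.span (Set.range g)))) :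
      Separated k G (lin g) 1
  | auto {τ σ : Type} [Finite σ] {f : MvPolynomial τ k} {M : ℕ} (hf : Separated k G f M)
      (e : MvPolynomial τ k ≃ₐ[k] MvPolynomial σ k) : Separated k G (e f) M
  | pow {τ : Type} {f : MvPolynomial τ k} {M : ℕ} (hf : Separated k G f M) (α : k) {a : ℕ}
      (ha : 0 < a) : Separated k G (C α * f ^ a) (a * M)
  | mul {τ σ : Type} {f : MvPolynomial τ k} {g : MvPolynomial σ k} {M N : ℕ}
      (hf : Separated k G f M) (hg : Separated k G g N) {a b : ℕ} (ha : 0 < a) (hb : 0 < b) :
      Separated k G (rename Sum.inl f ^ a * rename Sum.inr g ^ b) (Nat.gcd (a * M) (b * N))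
  | add {τ σ : Type} {f : MvPolynomial τ k} {g : MvPolynomial σ k} {M N : ℕ}
      (hf : Separated k G f M) (hg : Separated k G g N) (α β : k) {a b : ℕ} (ha : 0 < a)
      (hb : 0 < b) (h : From k G (fermat k α β (a * M) (b * N))) :
      Separated k G (C α * rename Sum.inl f ^ a + C β * rename Sum.inr g ^ b)
        (Nat.lcm (a * M) (b * N))
  | comp {τ σ : Type} {f : MvPolynomial τ k} {g : MvPolynomial σ k} {M N : ℕ}
      (hf : Separated k G f M) (hg : Separated k G g N) (Q : MvPolynomial (Unit ⊕ Unit) k)
      (x y : ℤ) {L : ℕ} (hL : 0 < L)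
      (hQ : IsWeightedHomogeneous (Sum.elim (fun _ => x * M) (fun _ => y * N)) Q (L : ℤ))
      (h : From k G (aff k (MvPolynomial (Unit ⊕ Unit) k ⧸ Ideal.span {aeval (pw k M N) Q - 1}))) :
      Separated k G (aeval (pair f g) Q) L

section

variable {k : Type} [Field k]

/-- The closed subscheme of the plane with the ideal `I` contains neither of the two axes. -/
def NoAxis (I : Ideal (MvPolynomial (Unit ⊕ Unit) k)) : Prop :=
  (∃ p ∈ I, aeval (Sum.elim (fun _ => 0) (fun _ => X ()) : Unit ⊕ Unit → MvPolynomial Unit k) p ≠ 0) ∧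
  ∃ p ∈ I, aeval (Sum.elim (fun _ => X ()) (fun _ => 0) : Unit ⊕ Unit → MvPolynomial Unit k) p ≠ 0

end

/-- The class `𝒞` of schemes contains the level sets and the complements of the zero sets of the
polynomials with separated variables. -/
def OnLevels (k : Type) [Field k] (G : Sch k → Prop) (𝒞 : Sch k → Prop) : Prop :=
  ∀ (τ : Type) (f : MvPolynomial τ k) (M : ℕ), Separated k G f M →
    (∀ c : k, 𝒞 (aff k (MvPolynomial τ k ⧸ Ideal.span {f - C c}))) ∧
    𝒞 (aff k (Localization.Away f))

/-- The class `𝒞` of schemes contains the hypersurfaces `f = 0` in the affine spaces over `k`, for all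
polynomials `f` with affinely independent exponents, in any number of variables. -/
def OnSimplices (k : Type) [Field k] (𝒞 : Sch k → Prop) : Prop :=
  ∀ (n : ℕ) (f : MvPolynomial (Fin n) k),
    AffineIndependent ℚ (fun (m : f.support) (i : Fin n) => (m.1 i : ℚ)) →
      𝒞 (aff k (MvPolynomial (Fin n) k ⧸ Ideal.span {f}))

/-- The class `𝒞` of schemes contains the preimages `{(x, y) | (f(x), g(y)) ∈ Z}`, for all polynomials `f`,
`g` with separated variables, of degrees `M`, `N`, and closed subschemes `Z` of the plane, which contain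
neither of the axes, such that `{(s, t) | (s ^ M, t ^ N) ∈ Z}` is generated by `G`. -/
def OnPlaneCurves (k : Type) [Field k] (G : Sch k → Prop) (𝒞 : Sch k → Prop) : Prop :=
  ∀ (τ σ : Type) (f : MvPolynomial τ k) (g : MvPolynomial σ k) (M N : ℕ), Separated k G f M →
    Separated k G g N → ∀ I : Ideal (MvPolynomial (Unit ⊕ Unit) k), NoAxis I →
      From k G (aff k (MvPolynomial (Unit ⊕ Unit) k ⧸ pre (pw k M N) I)) →
        𝒞 (aff k (MvPolynomial (τ ⊕ σ) k ⧸ pre (pair f g) I))

/-! ### ordinary primes -/

/-- The prime numbers `p ≡ 1` modulo `N`. -/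
def split (N : ℕ) : Set Nat.Primes := {p | (p : ℕ) ≡ 1 [MOD N]}

section motives

variable {C : Type u} [Category.{v} C] [Abelian C]

/-- The Hodge slopes of the cohomology of zero-dimensional schemes (Artin motives) are zero. -/
def HodgeOfPoints (V : ℤ → ℤ → Sch ℚ → C) (D : Slopes C) : Prop :=
  ∀ (A : Type) [CommRing A] [Algebra ℚ A] [Algebra.FiniteType ℚ A], ringKrullDim A ≤ 0 →
    ∀ w n : ℤ, ∀ x ∈ D.hodge (V w n (aff ℚ A)), x = 0

/-- Weil, Stickelberger, Katz: the Fermat curves with exponents dividing `N` are ordinary at almost all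
primes `p ≡ 1` modulo `N`. -/
def FermatOrdinary (V : ℤ → ℤ → Sch ℚ → C) (D : Slopes C) : Prop :=
  ∀ N : ℕ, 0 < N → ∀ X : Sch ℚ, FermatN ℚ N X → ∀ w n : ℤ, AlmostAll D (split N) (V w n X)

/-- The restriction of scalars of the motive `IH^n(X)`, `X` over `F`, is a direct summand of
`Gr^W_w H^m_c(Y)`, for a scheme `Y` in the class `𝒞`. -/
def ComesFrom (V : ℤ → ℤ → Sch ℚ → C) (D : Slopes C) (I : IHSlopes) (𝒞 : Sch ℚ → Prop)
    (F : Type) [Field F] [NumberField F] (X : Sch F) (n : ℤ) : Prop :=
  ∃ (Y : Sch ℚ) (w m : ℤ) (M : C), 𝒞 Y ∧ IsSummand M (V w m Y) ∧ IsRes D I F X n M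

end motives

end Pool.Agent.V5helper94.RO
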