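import Pool.Agent.V5helper94.RO.From
import Pool.Agent.V5helper52.FW.Few

/-!
# Hypersurfaces with affinely independent exponents

The arguments are the ones of helper52 (`V5helper52/FW`), for properties which are not assumed for all
curves, but only for the Fermat curves.
-/

set_option autoImplicit false
set_option maxHeartbeats 400000

open CategoryTheory AlgebraicGeometry MvPolynomial Pool.Agent.Y116.UV Pool.Agent.Z125.UN
  Pool.Agent.V5helper52.SF Pool.Agent.V5helper52.TR Pool.Agent.V5helper52.FW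
  Pool.Agent.V5helper94.SV
open Pool.Agent.V5helper94.RO hiding qu qv

namespace Pool.Agent.V5helper94.RF

variable {k : Type} [Field k] {P : Sch k → Prop} (hP : Cls0 True P)

include hP

/-- Closed subschemes of tori and coverings. -/
theorem p_cover0 {M L : Type} [AddCommGroup M] [AddCommGroup L] {j : M →+ L}
    (hj : Function.Injective j) [Finite (L ⧸ j.range)] (J : Ideal (AddMonoidAlgebra k M))
    (hft : Algebra.FiniteType k (AddMonoidAlgebra k M))
    (h : P (aff k (AddMonoidAlgebra k L ⧸ J.map (md k j)))) :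
    P (aff k (AddMonoidAlgebra k M ⧸ J)) := by
  letI : Algebra (AddMonoidAlgebra k M) (AddMonoidAlgebra k L) := (md k j).toRingHom.toAlgebra
  obtain ⟨n, hn, ⟨e⟩⟩ := lat_free (k := k) hj
  let A := AddMonoidAlgebra k M
  let B := AddMonoidAlgebra k L
  have hT : IsScalarTower k A B :=
    IsScalarTower.of_algebraMap_eq fun x => (AlgHom.commutes (md k j) x).symm
  let b := Algebra.TensorProduct.basis (A ⧸ J) (Module.Basis.ofEquivFun e)
  let e2 : (B ⧸ J.map (algebraMap A B)) ≃ₗ[A ⧸ J] (Fin n → A ⧸ J) :=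
    (Algebra.TensorProduct.quotIdealMapEquivQuotTensor B J).toLinearEquiv.trans b.equivFun
  have hT2 : IsScalarTower k (A ⧸ J) (B ⧸ J.map (algebraMap A B)) := by
    refine IsScalarTower.of_algebraMap_eq (R := k) (S := A ⧸ J)
      (A := B ⧸ J.map (algebraMap A B)) fun x => ?_
    exact congrArg (Ideal.Quotient.mk (J.map (algebraMap A B)))
      (AlgHom.commutes (md k j) x).symm
  exact hP.free (A ⧸ J) (B ⧸ J.map (algebraMap A B)) n hn ⟨e2⟩ h

/-- **Reduction to the torus of the span of the exponents.** -/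
theorem p_red0 {T : Type} [Fintype T] [DecidableEq T] {ρ : ℕ} (v : Fin ρ → (T → ℤ))
    (hv : LinearIndependent ℚ fun i => qv (v i)) :
    ∃ (E : ℕ) (j : (T → ℤ) →+ (Fin ρ → ℤ)), 0 < E ∧ (∀ i, j (v i) = E • Pi.single i 1) ∧
      (∀ m : T → ℤ, qv m ∈ Submodule.span ℚ (Set.range fun i => qv (v i)) → j m = 0 → m = 0) ∧
      ∀ f : AddMonoidAlgebra k (T → ℤ), (∀ m ∈ f.coeff.support,
        qv m ∈ Submodule.span ℚ (Set.range fun i => qv (v i))) →
        P (aff k (AddMonoidAlgebra k (Fin ρ → ℤ) ⧸ Ideal.span {md k j f})) →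
        P (aff k (AddMonoidAlgebra k (T → ℤ) ⧸ Ideal.span {f})) := by
  classical
  obtain ⟨β, hβ, E, j, hE, hinj, hfin, h1, h2, h3⟩ := exists_emb v hv
  let pr : (Fin ρ ⊕ β → ℤ) →+ (Fin ρ → ℤ) :=
    { toFun := fun x i => x (Sum.inl i)
      map_zero' := rfl
      map_add' := fun _ _ => rfl }
  let ι : (Fin ρ → ℤ) →+ (Fin ρ ⊕ β → ℤ) :=
    { toFun := fun x => Sum.elim x 0
      map_zero' := by
        funext x
        rcases x with x | x <;> rfl
      map_add' := fun x y => by
        funext z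
        rcases z with z | z
        · rfl
        · exact (add_zero (0 : ℤ)).symm }
  have hι : ∀ m : T → ℤ, qv m ∈ Submodule.span ℚ (Set.range fun i => qv (v i)) →
      j m = ι (pr (j m)) := by
    intro m hm
    funext x
    rcases x with x | x
    · rfl
    · exact h3 m hm x
  refine ⟨E, pr.comp j, hE, ?_, ?_, ?_⟩
  · intro i
    funext i'
    change j (v i) (Sum.inl i') = _
    rw [h2, Pi.smul_apply, Pi.single_apply]
    by_cases h : i = i'
    · rw [if_pos h, if_pos h.symm]
      simp
    · rw [if_neg h, if_neg (Ne.symm h)]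
      simp
  · intro m hm h0
    apply hinj
    rw [hι m hm, show pr (j m) = 0 from h0, map_zero, map_zero]
  · intro f hf hg
    refine p_cover0 hP hinj _ inferInstance ?_
    rw [Ideal.map_span, Set.image_singleton]
    have hf' : md k j f = md k ι (md k (pr.comp j) f) := by
      rw [← md_comp]
      exact md_congr f fun m hm => hι m (hf m hm)
    obtain ⟨b, ⟨eb⟩⟩ := Finite.exists_equiv_fin β
    let e : (Fin b → ℤ) × (Fin ρ → ℤ) ≃+ (Fin ρ ⊕ β → ℤ) :=
      { toFun := fun x => Sum.elim x.2 (fun y => x.1 (eb y))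
        invFun := fun x => (fun y => x (Sum.inr (eb.symm y)), fun i => x (Sum.inl i))
        left_inv := fun x => by
          refine Prod.ext ?_ rfl
          funext y
          exact congrArg x.1 (eb.apply_symm_apply y)
        right_inv := fun x => by
          funext y
          rcases y with y | y
          · rfl
          · exact congrArg (fun z => x (Sum.inr z)) (eb.symm_apply_apply y)
        map_add' := fun x y => by
          funext z
          rcases z with z | z <;> rfl }
    have h4 := p_split (loc_of_bnd hP.toBnd) (N := Fin ρ → ℤ) inferInstance e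
      (Ideal.span {md k (pr.comp j) f}) ι (fun n => by
        funext z
        rcases z with z | z <;> rfl) hg
    rw [Ideal.map_span, Set.image_singleton] at h4
    have h5 : (md k j) f = (md k ι) (md k (pr.comp j) f) := hf'
    change P (aff k (AddMonoidAlgebra k (Fin ρ ⊕ β → ℤ) ⧸ Ideal.span {(md k j) f}))
    rw [h5]
    exact h4


/-! ### Fermat equations -/

/-- **The Fermat equations with nonzero coefficients.** -/
theorem gdN_ferm {E : ℕ} (hE : 0 < E) (hF : ∀ α β : k, α ≠ 0 → β ≠ 0 → P (fermat k α β E E))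
    (n : ℕ) : ∀ (τ : Type) [Fintype τ], Fintype.card τ = n + 1 → ∀ c : τ → k, (∀ i, c i ≠ 0) →
      GdN P (Ferm E τ c) E := by
  induction n with
  | zero =>
    intro τ _ hτ c hc
    have e : Unit ≃ τ := Fintype.equivOfCardEq (by simpa using hτ.symm)
    have h1 := gdN_pow hP (gdN_var hP) (c (e ())) hE
    rw [mul_one] at h1
    have h2 : (C (c (e ())) * X () ^ E : MvPolynomial Unit k) = Ferm E Unit (fun t => c (e t)) := by
      rw [Ferm, Fintype.sum_unique]
    rw [h2] at h1
    have h3 := gdN_auto (Finite.of_fintype τ) h1 (renameEquiv k e)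
    rw [← ferm_rename e c]
    exact h3
  | succ n ih =>
    intro τ _ hτ c hc
    let e : Fin (n + 1) ⊕ Unit ≃ τ := Fintype.equivOfCardEq (by
      rw [Fintype.card_sum, Fintype.card_fin, Fintype.card_unit, hτ])
    have h1 := ih (Fin (n + 1)) (Fintype.card_fin _) (fun t => c (e (Sum.inl t)))
      (fun i => hc _)
    have h2 := gdN_add hP h1 (gdN_var hP) 1 (c (e (Sum.inr ()))) one_pos hE (by
      rw [one_mul, mul_one]
      exact hF _ _ one_ne_zero (hc _))
    rw [one_mul, mul_one, Nat.lcm_self] at h2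
    have h3 : (C 1 * rename Sum.inl (Ferm E (Fin (n + 1)) (fun t => c (e (Sum.inl t)))) ^ 1 +
        C (c (e (Sum.inr ()))) * rename Sum.inr (X ()) ^ E :
          MvPolynomial (Fin (n + 1) ⊕ Unit) k) = Ferm E (Fin (n + 1) ⊕ Unit) (fun t => c (e t)) := by
      rw [C_1, one_mul, pow_one, Ferm, Ferm, Fintype.sum_sum_type, map_sum, rename_X]
      congr 1
      · refine Finset.sum_congr rfl fun t _ => ?_
        rw [map_mul, map_pow, rename_C, rename_X]
      · exact (Fintype.sum_unique (fun t : Unit =>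
          (C (c (e (Sum.inr t))) * X (Sum.inr t) ^ E : MvPolynomial (Fin (n + 1) ⊕ Unit) k))).symm
    rw [h3] at h2
    have h4 := gdN_auto (Finite.of_fintype τ) h2 (renameEquiv k e)
    rw [← ferm_rename e c]
    exact h4

/-- the level sets -/
theorem p_ferm0 {E : ℕ} (hE : 0 < E) (hF : ∀ α β : k, α ≠ 0 → β ≠ 0 → P (fermat k α β E E))
    (τ : Type) [Fintype τ] (c : τ → k) (hc : ∀ i, c i ≠ 0) (a : k) :
    P (aff k (MvPolynomial τ k ⧸ Ideal.span {Ferm E τ c - C a})) := by
  rcases Nat.eq_zero_or_pos (Fintype.card τ) with h0 | h0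
  · have := Fintype.card_eq_zero_iff.mp h0
    refine hP.zero _ ((ringKrullDim_quotient_le _).trans ?_)
    rw [MvPolynomial.ringKrullDim_of_isNoetherianRing, ringKrullDim_eq_zero_of_field]
    simp
  · obtain ⟨n, hn⟩ := Nat.exists_eq_succ_of_ne_zero h0.ne'
    exact gdN_level hP (gdN_ferm hP hE hF n τ hn c hc) a

/-- **The Fermat equations in the torus.** -/
theorem p_tferm0 {E : ℕ} (hE : 0 < E) (hF : ∀ α β : k, α ≠ 0 → β ≠ 0 → P (fermat k α β E E))
    (σ : Type) [Fintype σ] [DecidableEq σ] (c : σ → k) (hc : ∀ i, c i ≠ 0) (a : k) :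
    P (aff k (AddMonoidAlgebra k (σ → ℤ) ⧸ Ideal.span {AddMonoidAlgebra.single 0 a +
      ∑ i, AddMonoidAlgebra.single (E • Pi.single i 1 : σ → ℤ) (c i)})) := by
  have hL := loc_of_bnd hP.toBnd
  have h1 := p_open hL (Ideal.span {Ferm E σ c - C (-a)}) (fun T => by
    have h2 := isQ_sub (Ideal.span {Ferm E σ c - C (-a)}) T
    have h3 : P (aff k (MvPolynomial {i // ¬ i ∈ T} k ⧸
        (Ideal.span {Ferm E σ c - C (-a)}).map (rs k T))) := by
      rw [Ideal.map_span, Set.image_singleton]
      change P (aff k (MvPolynomial {i // ¬ i ∈ T} k ⧸ Ideal.span {rs k T (Ferm E σ c - C (-a))}))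
      rw [rs_ferm hE]
      exact p_ferm0 hP hE hF {i // ¬ i ∈ T} (fun i => c i.1) (fun i => hc i.1) (-a)
    exact st_to hL (isQ_one _) (st_of hL h2 h3))
  rw [Ideal.map_span, Set.image_singleton] at h1
  -- change of the index set
  let u : (↥(Finset.univ : Finset σ) → ℤ) ≃+ (σ → ℤ) :=
    { toFun := fun x i => x ⟨i, Finset.mem_univ i⟩
      invFun := fun x i => x i.1
      left_inv := fun x => rfl
      right_inv := fun x => rfl
      map_add' := fun x y => rfl }
  let U : AddMonoidAlgebra k (↥(Finset.univ : Finset σ) → ℤ) ≃ₐ[k] AddMonoidAlgebra k (σ → ℤ) :=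
    AddMonoidAlgebra.domCongr k k u
  have hU : U (th k Finset.univ (Ferm E σ c - C (-a))) = AddMonoidAlgebra.single 0 a +
      ∑ i, AddMonoidAlgebra.single (E • Pi.single i 1 : σ → ℤ) (c i) := by
    have hX : ∀ i, U (th k Finset.univ (X i)) = AddMonoidAlgebra.single (Pi.single i 1) 1 := by
      intro i
      rw [th_mem (Finset.mem_univ i), Pool.Agent.V5helper52.FW.tv]
      refine (AddMonoidAlgebra.domCongr_single _ _ _).trans ?_
      congr 1
      funext i'
      change (Pi.single (⟨i, Finset.mem_univ i⟩ : ↥(Finset.univ : Finset σ)) (1 : ℤ) :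
        ↥(Finset.univ : Finset σ) → ℤ) ⟨i', Finset.mem_univ i'⟩ = _
      rw [Pi.single_apply, Pi.single_apply]
      congr 1
      exact propext Subtype.ext_iff
    have hC : ∀ x : k, U (th k Finset.univ (C x)) = AddMonoidAlgebra.single 0 x := by
      intro x
      rw [← algebraMap_eq, AlgHom.commutes, AlgEquiv.commutes]
      rfl
    rw [map_sub, map_sub, hC, Ferm, map_sum, map_sum, add_comm, sub_eq_add_neg]
    congr 1
    · refine Finset.sum_congr rfl fun i _ => ?_
      rw [map_mul, map_pow, map_mul, map_pow, hX, hC, AddMonoidAlgebra.single_pow, one_pow,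
        AddMonoidAlgebra.single_mul_single, zero_add, mul_one]
    · rw [AddMonoidAlgebra.single_neg, neg_neg]
  have e : (AddMonoidAlgebra k (↥(Finset.univ : Finset σ) → ℤ) ⧸
      Ideal.span {th k Finset.univ (Ferm E σ c - C (-a))}) ≃ₐ[k]
      (AddMonoidAlgebra k (σ → ℤ) ⧸ Ideal.span {AddMonoidAlgebra.single 0 a +
      ∑ i, AddMonoidAlgebra.single (E • Pi.single i 1 : σ → ℤ) (c i)}) :=
    Ideal.quotientEquivAlg _ _ U (by
      rw [Ideal.map_span, Set.image_singleton, ← hU]
      rfl)
  exact iso_alg hL e h1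

/-- the exponents are affinely independent -/
lemma lat_simplex0 (hF : ∀ (E : ℕ) (α β : k), 0 < E → α ≠ 0 → β ≠ 0 → P (fermat k α β E E))
    {T : Type} [Fintype T] [DecidableEq T] (g : AddMonoidAlgebra k (T → ℤ)) (m0 : T → ℤ) (hm0 : m0 ∈ g.coeff.support)
    (hg : AffineIndependent ℚ (fun m : g.coeff.support => qv m.1)) :
    P (aff k (AddMonoidAlgebra k (T → ℤ) ⧸ Ideal.span {g})) := by
  classical
  rw [affineIndependent_iff_linearIndependent_vsub ℚ _ ⟨m0, hm0⟩] at hg
  let κ := {x : g.coeff.support // x ≠ ⟨m0, hm0⟩}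
  obtain ⟨ρ, ⟨e⟩⟩ : ∃ ρ, Nonempty (Fin ρ ≃ κ) := ⟨_, ⟨(Fintype.equivFin κ).symm⟩⟩
  let v : Fin ρ → (T → ℤ) := fun i => (e i).1.1 - m0
  have hv : LinearIndependent ℚ fun i : Fin ρ => qv (v i) := by
    have h1 := hg.comp e e.injective
    have h2 : (fun i : Fin ρ => qv (v i)) = (fun i : κ => qv i.1.1 -ᵥ qv m0) ∘ e := by
      funext i
      exact qv_sub _ _
    rw [h2]
    exact h1
  obtain ⟨E, j, hE, hj1, hj2, hj3⟩ := p_red0 hP v hv
  have hsum : AddMonoidAlgebra.single (-m0) 1 * g = AddMonoidAlgebra.single 0 (g.coeff m0) +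
      ∑ i, AddMonoidAlgebra.single (v i) (g.coeff (e i).1.1) := by
    rw [shift_eq, ← Finset.add_sum_erase _ _ hm0, sub_self]
    congr 1
    symm
    refine Finset.sum_bij (fun i _ => (e i).1.1) ?_ ?_ ?_ ?_
    · intro i _
      refine Finset.mem_erase.mpr ⟨fun h => (e i).2 (Subtype.ext h), (e i).1.2⟩
    · intro i _ i' _ h
      exact e.injective (Subtype.ext (Subtype.ext h))
    · intro m hm
      obtain ⟨h1, h2⟩ := Finset.mem_erase.mp hm
      refine ⟨e.symm ⟨⟨m, h2⟩, fun h => h1 (congrArg Subtype.val h)⟩, Finset.mem_univ _, ?_⟩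
      rw [e.apply_symm_apply]
    · intro i _
      rfl
  rw [← shift_span g m0]
  refine hj3 _ (fun m hm => ?_) ?_
  · obtain ⟨m', hm', rfl⟩ := shift_supp g m0 m hm
    by_cases h : m' = m0
    · rw [h, sub_self]
      have h0 : qv (0 : T → ℤ) = 0 := by
        funext t
        exact Int.cast_zero
      rw [h0]
      exact zero_mem _
    · refine Submodule.subset_span ⟨e.symm ⟨⟨m', hm'⟩, fun h' => h (congrArg Subtype.val h')⟩, ?_⟩
      change qv ((e (e.symm _)).1.1 - m0) = _
      rw [e.apply_symm_apply]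
  · rw [hsum, map_add, map_sum, md_single, map_zero]
    have h1 : ∀ i, md k j (AddMonoidAlgebra.single (v i) (g.coeff (e i).1.1)) =
        AddMonoidAlgebra.single (E • Pi.single i 1 : Fin ρ → ℤ) (g.coeff (e i).1.1) := by
      intro i
      rw [md_single, hj1]
    have h2 : (∑ i, md k j (AddMonoidAlgebra.single (v i) (g.coeff (e i).1.1))) =
        ∑ i, AddMonoidAlgebra.single (E • Pi.single i 1 : Fin ρ → ℤ) (g.coeff (e i).1.1) :=
      Finset.sum_congr rfl fun i _ => h1 i
    have h3 := p_tferm0 hP hE (fun α β => hF E α β hE) (Fin ρ) (fun i => g.coeff (e i).1.1)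
      (fun i => Finsupp.mem_support_iff.mp (e i).1.2) (g.coeff m0)
    rw [← h2] at h3
    exact h3


/-- **Laurent polynomials with affinely independent exponents.** -/
theorem p_lat0 (hF : ∀ (E : ℕ) (α β : k), 0 < E → α ≠ 0 → β ≠ 0 → P (fermat k α β E E))
    {T : Type} [Fintype T] [DecidableEq T] (g : AddMonoidAlgebra k (T → ℤ))
    (hg : AffineIndependent ℚ
      (fun x : (qv '' (g.coeff.support : Set (T → ℤ))) => (x : T → ℚ))) :
    P (aff k (AddMonoidAlgebra k (T → ℤ) ⧸ Ideal.span {g})) := by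
  classical
  rcases g.coeff.support.eq_empty_or_nonempty with h | ⟨m0, hm0⟩
  · obtain ⟨E, j, hE, hj1, hj2, hj3⟩ := p_red0 hP (T := T) (ρ := 0) (fun i => i.elim0)
      (linearIndependent_empty_type)
    refine hj3 g (fun m hm => ?_) (p_small (n := 0) (fun A _ _ _ hA => hP.zero A
      (by exact_mod_cast hA)) (by omega) _ (by omega))
    rw [h] at hm
    exact absurd hm (Finset.notMem_empty m)
  · refine lat_simplex0 hP hF g m0 hm0 ?_
    let u : g.coeff.support ↪ (qv '' (g.coeff.support : Set (T → ℤ))) :=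
      ⟨fun m => ⟨qv m.1, m.1, m.2, rfl⟩, fun x y hxy =>
        Subtype.ext (qv_inj (congrArg Subtype.val hxy))⟩
    exact hg.comp_embedding u

omit hP in
lemma ai_th {σ : Type} [Fintype σ] [DecidableEq σ] (T : Finset σ) (f : MvPolynomial σ k)
    (hf : AffineIndependent ℚ (fun x : expo f => (x : σ → ℚ))) :
    AffineIndependent ℚ
      (fun x : (qv '' ((th k T f).coeff.support : Set (T → ℤ))) => (x : T → ℚ)) := by
  have key : ez T '' (qv '' ((th k T f).coeff.support : Set (T → ℤ))) ⊆ expo f := by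
    rintro _ ⟨_, ⟨m', hm', rfl⟩, rfl⟩
    obtain ⟨m, hm, h1, h2⟩ := th_supp T f m' hm'
    refine ⟨m, hm, ?_⟩
    funext i
    change (m i : ℚ) = if h : i ∈ T then ((m' ⟨i, h⟩ : ℤ) : ℚ) else 0
    by_cases h : i ∈ T
    · rw [dif_pos h, h2 ⟨i, h⟩]
      rfl
    · rw [dif_neg h]
      by_contra h3
      exact h (h1 i fun h4 => h3 (by rw [h4]; rfl))
  have h1 := hf.mono key
  let s := qv '' ((th k T f).coeff.support : Set (T → ℤ))
  let u : s ↪ ez T '' s := ⟨fun x => ⟨ez T x, x, x.2, rfl⟩, fun x y hxy =>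
    Subtype.ext (ez_inj T (congrArg Subtype.val hxy))⟩
  have h2 := h1.comp_embedding u
  exact AffineIndependent.of_comp (ez T).toAffineMap h2

/-- **Polynomials with affinely independent exponents.** -/
theorem p_few0 (hF : ∀ (E : ℕ) (α β : k), 0 < E → α ≠ 0 → β ≠ 0 → P (fermat k α β E E))
    {σ : Type} [Finite σ] (f : MvPolynomial σ k)
    (hf : AffineIndependent ℚ (fun (m : f.support) (i : σ) => (m.1 i : ℚ))) :
    P (aff k (MvPolynomial σ k ⧸ Ideal.span {f})) := by
  classical
  have := Fintype.ofFinite σ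
  have hr : Set.range (fun (m : f.support) (i : σ) => (m.1 i : ℚ)) = expo f := by
    ext x
    constructor
    · rintro ⟨m, rfl⟩
      exact ⟨m.1, m.2, rfl⟩
    · rintro ⟨m, hm, rfl⟩
      exact ⟨⟨m, hm⟩, rfl⟩
  have h2 := hf.range
  rw [hr] at h2
  refine p_strata (loc_of_bnd hP.toBnd) _ fun T => ?_
  rw [Ideal.map_span, Set.image_singleton]
  exact p_lat0 hP hF (th k T f) (ai_th T f h2)

end Pool.Agent.V5helper94.RF
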