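import Pool.Agent.V5helper94.RO.Rules

/-!
# Schemes which are built from a class of schemes and from dimension zero
-/

set_option autoImplicit false

open CategoryTheory AlgebraicGeometry MvPolynomial Pool.Agent.Y116.UV Pool.Agent.Z125.UN
  Pool.Agent.V5helper77.GW Pool.Agent.V5helper52.SF Pool.Agent.V5helper94.SV TensorProduct

namespace Pool.Agent.V5helper94.RO

section

variable {k : Type} [Field k] {G : Sch k → Prop}

lemma from_space (n : ℕ) : From k G (aff k (MvPolynomial (Fin n) k)) := by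
  have h1 : From k G (aff k k) := .zero k (by rw [ringKrullDim_eq_zero_of_field])
  have h2 := From.bundle k (n + 1) (f1 k n) (aff k k) ⟨𝟙 _, inferInstance, range_id n⟩ h1
  exact .iso (ft_aff True) ⟨(affIso (jouOne k n)).symm⟩ h2

/-- The closure properties `Cls0` of the schemes which are generated by `G`. -/
theorem cls_from : Cls0 True (From k G) where
  iso hX e h := .iso hX e h
  total i j hX ht hZ hU := .total i j hX ht hZ hU
  opened i j hX ht hZ h := .opened i j hX ht hZ h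
  closed i j hX ht h hU := .closed i j hX ht h hU
  space n := from_space n
  jouanolou A _ _ _ m f U j hj hr h := .jouanolou A m f U ⟨j, hj, hr⟩ h
  torus A _ _ _ h := .torus A h
  bundle A _ _ _ m f U j hj hr h := .bundle A m f U ⟨j, hj, hr⟩ h
  prod A B _ _ _ _ _ _ hA hB := .prod A B hA hB
  free A B _ _ _ _ _ _ _ n hn hb h := .free A B n hn hb h
  zero A _ _ _ hA := .zero A hA

/-- Induction over the schemes which are generated by `G`. -/
theorem from_le {P : Sch k → Prop} (hP : Cls0 True P) (h : ∀ X : Sch k, G X → P X) {X : Sch k}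
    (hX : From k G X) : P X := by
  induction hX with
  | gen hX => exact h _ hX
  | zero A hA => exact hP.zero A hA
  | iso hX e _ ih => exact hP.iso hX e ih
  | total i j hX ht _ _ h1 h2 => exact hP.total i j hX ht h1 h2
  | opened i j hX ht _ _ h1 h2 => exact hP.opened i j hX ht h1 h2
  | closed i j hX ht _ _ h1 h2 => exact hP.closed i j hX ht h1 h2
  | bundle A m f U hU _ ih =>
    obtain ⟨j, hj, hr⟩ := hU
    exact hP.bundle A m f U j hj hr ih
  | jouanolou A m f U hU _ ih =>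
    obtain ⟨j, hj, hr⟩ := hU
    exact hP.jouanolou A m f U j hj hr ih
  | torus A _ ih => exact hP.torus A ih
  | prod A B _ _ h1 h2 => exact hP.prod A B h1 h2
  | free A B n hn hb _ ih => exact hP.free A B n hn hb ih

lemma from_mono {G' : Sch k → Prop} (h : ∀ X, G X → G' X) {X : Sch k} (hX : From k G X) :
    From k G' X := by
  induction hX with
  | gen hX => exact .gen (h _ hX)
  | zero A hA => exact .zero A hA
  | iso hX e _ ih => exact .iso hX e ih
  | total i j hX ht _ _ h1 h2 => exact .total i j hX ht h1 h2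
  | opened i j hX ht _ _ h1 h2 => exact .opened i j hX ht h1 h2
  | closed i j hX ht _ _ h1 h2 => exact .closed i j hX ht h1 h2
  | bundle A m f U hU _ ih => exact .bundle A m f U hU ih
  | jouanolou A m f U hU _ ih => exact .jouanolou A m f U hU ih
  | torus A _ ih => exact .torus A ih
  | prod A B _ _ h1 h2 => exact .prod A B h1 h2
  | free A B n hn hb _ ih => exact .free A B n hn hb ih

lemma fermatN_mono {N N' : ℕ} (h : N ∣ N') (X : Sch k) (hX : FermatN k N X) : FermatN k N' X := by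
  obtain ⟨α, β, a, b, h1, h2, h3, h4, h5, h6, rfl⟩ := hX
  exact ⟨α, β, a, b, h1, h2, h3, h4, h5.trans h, h6.trans h, rfl⟩

/-- only finitely many Fermat curves are needed -/
theorem from_fermatN {X : Sch k} (hX : From k (IsFermat k) X) :
    ∃ N : ℕ, 0 < N ∧ From k (FermatN k N) X := by
  have two : ∀ {X Y : Sch k} {N N' : ℕ}, 0 < N → 0 < N' → From k (FermatN k N) X →
      From k (FermatN k N') Y → From k (FermatN k (N * N')) X ∧ From k (FermatN k (N * N')) Y :=
    fun _ _ hX hY => ⟨from_mono (fermatN_mono (Dvd.intro _ rfl)) hX,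
      from_mono (fermatN_mono (Dvd.intro_left _ rfl)) hY⟩
  induction hX with
  | gen hX =>
    obtain ⟨α, β, a, b, h1, h2, h3, h4, rfl⟩ := hX
    exact ⟨a * b, Nat.mul_pos h3 h4, .gen ⟨α, β, a, b, h1, h2, h3, h4, Dvd.intro _ rfl,
      Dvd.intro_left _ rfl, rfl⟩⟩
  | zero A hA => exact ⟨1, one_pos, .zero A hA⟩
  | iso hX e _ ih =>
    obtain ⟨N, hN, h⟩ := ih
    exact ⟨N, hN, .iso hX e h⟩
  | total i j hX ht _ _ h1 h2 =>
    obtain ⟨N, hN, h⟩ := h1
    obtain ⟨N', hN', h'⟩ := h2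
    obtain ⟨h3, h4⟩ := two hN hN' h h'
    exact ⟨N * N', Nat.mul_pos hN hN', .total i j hX ht h3 h4⟩
  | opened i j hX ht _ _ h1 h2 =>
    obtain ⟨N, hN, h⟩ := h1
    obtain ⟨N', hN', h'⟩ := h2
    obtain ⟨h3, h4⟩ := two hN hN' h h'
    exact ⟨N * N', Nat.mul_pos hN hN', .opened i j hX ht h3 h4⟩
  | closed i j hX ht _ _ h1 h2 =>
    obtain ⟨N, hN, h⟩ := h1
    obtain ⟨N', hN', h'⟩ := h2
    obtain ⟨h3, h4⟩ := two hN hN' h h'
    exact ⟨N * N', Nat.mul_pos hN hN', .closed i j hX ht h3 h4⟩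
  | bundle A m f U hU _ ih =>
    obtain ⟨N, hN, h⟩ := ih
    exact ⟨N, hN, .bundle A m f U hU h⟩
  | jouanolou A m f U hU _ ih =>
    obtain ⟨N, hN, h⟩ := ih
    exact ⟨N, hN, .jouanolou A m f U hU h⟩
  | torus A _ ih =>
    obtain ⟨N, hN, h⟩ := ih
    exact ⟨N, hN, .torus A h⟩
  | prod A B _ _ h1 h2 =>
    obtain ⟨N, hN, h⟩ := h1
    obtain ⟨N', hN', h'⟩ := h2
    obtain ⟨h3, h4⟩ := two hN hN' h h'
    exact ⟨N * N', Nat.mul_pos hN hN', .prod A B h3 h4⟩
  | free A B n hn hb _ ih =>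
    obtain ⟨N, hN, h⟩ := ih
    exact ⟨N, hN, .free A B n hn hb h⟩

/-! ### closed subschemes of the plane -/

lemma dim_axis {I : Ideal (MvPolynomial (Unit ⊕ Unit) k)} {D : Type} [CommRing D] [Algebra k D]
    (θ : MvPolynomial (Unit ⊕ Unit) k →ₐ[k] D) (hθ : Function.Surjective θ)
    (h1 : ∀ p ∈ I, θ p = 0) (ψ : MvPolynomial (Unit ⊕ Unit) k →ₐ[k] MvPolynomial Unit k)
    (φ : MvPolynomial Unit k →ₐ[k] D) (hφ : φ.comp ψ = θ) {p : MvPolynomial (Unit ⊕ Unit) k}
    (hp : p ∈ I) (hp0 : ψ p ≠ 0) : ringKrullDim D ≤ 0 := by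
  have h2 : φ (ψ p) = 0 := by
    have h := DFunLike.congr_fun hφ p
    rw [AlgHom.comp_apply] at h
    rw [h, h1 p hp]
  have h3 : Ideal.span {ψ p} ≠ ⊥ := by
    rw [Ne, Ideal.span_singleton_eq_bot]
    exact hp0
  refine (ringKrullDim_le_of_surjective (qLift φ h2).toRingHom ?_).trans (dim_unit _ h3)
  intro z
  obtain ⟨q, rfl⟩ := hθ z
  refine ⟨qm k _ (ψ q), ?_⟩
  change qLift φ h2 (qm k _ (ψ q)) = θ q
  rw [qLift_qm, ← hφ]
  rfl

lemma dim_axis_u {I : Ideal (MvPolynomial (Unit ⊕ Unit) k)} (hI : NoAxis I) :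
    ringKrullDim ((MvPolynomial (Unit ⊕ Unit) k ⧸ I) ⧸ Ideal.span {qu I}) ≤ 0 := by
  obtain ⟨p, hp, hp0⟩ := hI.1
  refine dim_axis (I := I) ((qm k (qu I)).comp (Ideal.Quotient.mkₐ k _)) ?_ ?_ _
    (aeval fun _ => qm k (qu I) (qv I)) ?_ hp hp0
  · exact (qm_surj (k := k) _).comp Ideal.Quotient.mk_surjective
  · intro q hq
    rw [AlgHom.comp_apply]
    have h : Ideal.Quotient.mkₐ k I q = 0 := Ideal.Quotient.eq_zero_iff_mem.mpr hq
    rw [h, map_zero]
  · apply MvPolynomial.algHom_ext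
    rintro (i | i)
    · rw [AlgHom.comp_apply, aeval_X]
      change aeval _ (0 : MvPolynomial Unit k) = qm k (qu I) (qu I)
      rw [map_zero, qm_self]
    · rw [AlgHom.comp_apply, aeval_X]
      exact aeval_X _ _

lemma dim_axis_v {I : Ideal (MvPolynomial (Unit ⊕ Unit) k)} (hI : NoAxis I) :
    ringKrullDim ((MvPolynomial (Unit ⊕ Unit) k ⧸ I) ⧸ Ideal.span {qv I}) ≤ 0 := by
  obtain ⟨p, hp, hp0⟩ := hI.2
  refine dim_axis (I := I) ((qm k (qv I)).comp (Ideal.Quotient.mkₐ k _)) ?_ ?_ _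
    (aeval fun _ => qm k (qv I) (qu I)) ?_ hp hp0
  · exact (qm_surj (k := k) _).comp Ideal.Quotient.mk_surjective
  · intro q hq
    rw [AlgHom.comp_apply]
    have h : Ideal.Quotient.mkₐ k I q = 0 := Ideal.Quotient.eq_zero_iff_mem.mpr hq
    rw [h, map_zero]
  · apply MvPolynomial.algHom_ext
    rintro (i | i)
    · rw [AlgHom.comp_apply, aeval_X]
      exact aeval_X _ _
    · rw [AlgHom.comp_apply, aeval_X]
      change aeval _ (0 : MvPolynomial Unit k) = qm k (qv I) (qv I)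
      rw [map_zero, qm_self]

lemma noAxis_pw {I : Ideal (MvPolynomial (Unit ⊕ Unit) k)} (hI : NoAxis I) {M N : ℕ} (hM : 0 < M)
    (hN : 0 < N) : NoAxis (pre (pw k M N) I) := by
  obtain ⟨⟨p, hp, hp0⟩, ⟨q, hq, hq0⟩⟩ := hI
  refine ⟨⟨aeval (pw k M N) p, Ideal.mem_map_of_mem _ hp, ?_⟩,
    ⟨aeval (pw k M N) q, Ideal.mem_map_of_mem _ hq, ?_⟩⟩
  · intro h
    apply hp0
    apply expand_injective hN
    rw [aeval_pw, zero_pow hM.ne'] at h
    rw [map_zero]
    refine Eq.trans ?_ h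
    have h1 : (expand N).comp (aeval (Sum.elim (fun _ => 0) (fun _ => X ()) :
        Unit ⊕ Unit → MvPolynomial Unit k)) = aeval (Sum.elim (fun _ => 0) (fun _ => X () ^ N)) := by
      apply MvPolynomial.algHom_ext
      rintro (i | i)
      · rw [AlgHom.comp_apply, aeval_X, aeval_X]
        exact map_zero _
      · rw [AlgHom.comp_apply, aeval_X, aeval_X]
        exact expand_X _ _
    exact DFunLike.congr_fun h1 p
  · intro h
    apply hq0
    apply expand_injective hM
    rw [aeval_pw, zero_pow hN.ne'] at h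
    rw [map_zero]
    refine Eq.trans ?_ h
    have h1 : (expand M).comp (aeval (Sum.elim (fun _ => X ()) (fun _ => 0) :
        Unit ⊕ Unit → MvPolynomial Unit k)) = aeval (Sum.elim (fun _ => X () ^ M) (fun _ => 0)) := by
      apply MvPolynomial.algHom_ext
      rintro (i | i)
      · rw [AlgHom.comp_apply, aeval_X, aeval_X]
        exact expand_X _ _
      · rw [AlgHom.comp_apply, aeval_X, aeval_X]
        exact map_zero _
    exact DFunLike.congr_fun h1 q

/-- **Preimages of plane curves.** -/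
theorem pre_curve {P : Sch k → Prop} {sep : Prop} (hP : Cls0 sep P) {τ σ : Type}
    {f : MvPolynomial τ k} {g : MvPolynomial σ k} {M N : ℕ} (hf : GdN P f M) (hg : GdN P g N)
    (I : Ideal (MvPolynomial (Unit ⊕ Unit) k)) (hI : NoAxis I)
    (h : P (aff k (MvPolynomial (Unit ⊕ Unit) k ⧸ pre (pw k M N) I))) :
    P (aff k (MvPolynomial (τ ⊕ σ) k ⧸ pre (pair f g) I)) :=
  pre_two hP hf hg I (dim_axis_u hI) (dim_axis_v hI) (dim_axis_u (noAxis_pw hI hf.1 hg.1))
    (dim_axis_v (noAxis_pw hI hf.1 hg.1)) h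

end

end Pool.Agent.V5helper94.RO
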