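import Pool.Agent.V5helper94.RO.Few
import Pool.Agent.V5helper94.OB.Main

/-!
# Ordinary primes for the schemes generated by Fermat curves
-/

set_option autoImplicit false

open CategoryTheory CategoryTheory.Limits AlgebraicGeometry MvPolynomial Pool.Agent.Y116.UV
  Pool.Agent.Z125.UN Pool.Agent.V5helper77.GW Pool.Agent.V5helper77.OP Pool.Agent.V5helper94.SV
  Pool.Agent.V5helper94.WB Pool.Agent.V5helper94.OB Pool.Agent.V5helper52.SF NumberField
  IsDedekindDomain Filter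
open scoped TensorProduct

universe v u

namespace Pool.Agent.V5helper94.RO

section

variable {k : Type} [Field k] {G : Sch k → Prop}

lemma gdN_separated {τ : Type} {f : MvPolynomial τ k} {M : ℕ} (hf : Separated k G f M) :
    GdN (From k G) f M := by
  induction hf with
  | good f w hM hf h => exact gdN_good cls_from f w hM hf h
  | lin g h => exact gdN_lin cls_from g h
  | auto _ e ih => exact gdN_auto inferInstance ih e
  | pow _ α ha ih => exact gdN_pow cls_from ih α ha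
  | mul _ _ ha hb ih ih' => exact gdN_mul cls_from ih ih' ha hb
  | add _ _ α β ha hb h ih ih' => exact gdN_add cls_from ih ih' α β ha hb h
  | comp _ _ Q x y hL hQ h ih ih' => exact gdN_comp cls_from ih ih' Q x y _ hL hQ h

theorem on_levels : OnLevels k G (From k G) := fun _ _ _ hf =>
  ⟨gdN_level cls_from (gdN_separated hf), gdN_compl cls_from (gdN_separated hf)⟩

theorem on_planeCurves : OnPlaneCurves k G (From k G) := fun _ _ _ _ _ _ hf hg I hI h =>
  pre_curve cls_from (gdN_separated hf) (gdN_separated hg) I hI h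

end

theorem on_simplices (k : Type) [Field k] : OnSimplices k (From k (IsFermat k)) := fun _ f hf =>
  Pool.Agent.V5helper94.RF.p_few0 cls_from
    (fun E α β hE hα hβ => .gen ⟨α, β, E, E, hα, hβ, hE, hE, rfl⟩) f hf

/-! ### ordinary primes -/

lemma infinite_split {N : ℕ} (hN : 0 < N) : (split N).Infinite := by
  have h := Nat.infinite_setOfPred_prime_modEq_one hN.ne'
  intro hf
  apply h
  refine (hf.image (fun p : Nat.Primes => (p : ℕ))).subset ?_
  rintro p ⟨hp, hp1⟩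
  exact ⟨⟨p, hp⟩, hp1, rfl⟩

section motives

variable {C : Type u} [Category.{v} C] [Abelian C] {V : ℤ → ℤ → Sch ℚ → C} {tw : ℤ → C → C}
  {ten : C → C → C} {D : Slopes C} {I : IHSlopes}

omit [Category.{v} C] [Abelian C] in
lemma above_zero {n h : Multiset ℚ} (H : Above n h) (hh : ∀ x ∈ h, x = 0) : n = h := by
  apply H.eq_of_sq
  have h1 : Pool.Agent.V5helper77.OP.sq h = 0 := by
    rw [Pool.Agent.V5helper77.OP.sq]
    apply Multiset.sum_eq_zero
    intro x hx
    obtain ⟨y, hy, rfl⟩ := Multiset.mem_map.mp hx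
    rw [hh y hy]
    norm_num
  rw [h1, Pool.Agent.V5helper77.OP.sq]
  apply Multiset.sum_nonneg
  intro x hx
  obtain ⟨y, _, rfl⟩ := Multiset.mem_map.mp hx
  exact sq_nonneg y

variable (hV : IsTensorTheory V tw ten) (hD : IsSlopes V tw ten D) (hA : HodgeOfPoints V D)

include hV hD hA

/-- The closure properties `Cls0`. -/
theorem cls_ord {𝓕 : Filter Nat.Primes} (h𝓕 : 𝓕 ≤ cofinite) :
    Cls0 True (AllPieces V fun _ M => ∀ᶠ p in 𝓕, D.Ord M p) where
  toBnd := bnd_ord hV.toIsWeightTheory hD h𝓕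
  prod A B _ _ _ _ _ _ hA hB w n := by
    obtain ⟨L, ⟨e⟩⟩ := hV.kunneth A B w n
    refine (twistClass hD h𝓕).retract w e.hom e.inv e.hom_inv_id
      (sumObj_mem (twistClass hD h𝓕) w _ ?_)
    intro M hM
    obtain ⟨q, _, rfl⟩ := List.mem_map.mp hM
    exact ord_ten hD h𝓕 (hA q.1 q.2) (hB (w - q.1) (n - q.2))
  free A B _ _ _ _ _ _ _ N hN hb h w n := by
    obtain ⟨s, r, hs⟩ := hV.cover A B N hN hb w n
    exact (twistClass hD h𝓕).retract w s r hs (h w n)
  zero A _ _ _ h0 w n := by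
    apply h𝓕
    filter_upwards [hD.above (V w n (aff ℚ A))] with p hp
    exact above_zero hp (hA A h0 w n)

/-- **Theorem**: the transfer from `G` to the schemes generated by `G`. -/
theorem from_ord (G : Sch ℚ → Prop) (P : Set Nat.Primes)
    (h : ∀ X : Sch ℚ, G X → ∀ w n : ℤ, AlmostAll D P (V w n X)) (X : Sch ℚ) (hX : From ℚ G X)
    (w n : ℤ) : AlmostAll D P (V w n X) := by
  have hle : (cofinite ⊓ 𝓟 P : Filter Nat.Primes) ≤ cofinite := inf_le_left
  unfold AlmostAll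
  rw [finite_iff]
  exact from_le (cls_ord hV hD hA hle) (fun Y hY w n => (finite_iff P _).mp (h Y hY w n)) hX w n

omit hV hA in
/-- Intersection cohomology. -/
theorem inter_of (hI : IsIH V D I) {𝒞 : Sch ℚ → Prop} {P : Set Nat.Primes} {F : Type} [Field F]
    [NumberField F] {X : Sch F} (hX : IsProjVar X) {n : ℤ} (hM : ComesFrom V D I 𝒞 F X n)
    (h : ∀ Y : Sch ℚ, 𝒞 Y → ∀ w n : ℤ, AlmostAll D P (V w n Y)) :
    {p ∈ P | ¬ ∀ v ∈ lying F p, I.Ord F X n v}.Finite := by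
  obtain ⟨Y, w, m, M, hY, hs, hM⟩ := hM
  have h1 := h Y hY w m
  unfold AlmostAll at h1
  rw [finite_iff] at h1 ⊢
  have h2 := (inf_le_left : cofinite ⊓ 𝓟 P ≤ cofinite) (ord_summand hD hs)
  have h3 := (inf_le_left : cofinite ⊓ 𝓟 P ≤ cofinite) (ord_res (hI.above F X hX n) hM)
  filter_upwards [h1, h2, h3] with p e1 e2 e3
  exact e3 (e2 e1)

/-- The primes `p ≡ 1` modulo `N` and the schemes which are generated by Fermat curves. -/
theorem fermat_ord (hF : FermatOrdinary V D) {X : Sch ℚ} (hX : From ℚ (IsFermat ℚ) X) :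
    ∃ N : ℕ, 0 < N ∧ ∀ w n : ℤ, AlmostAll D (split N) (V w n X) := by
  obtain ⟨N, hN, h⟩ := from_fermatN hX
  exact ⟨N, hN, fun w n => from_ord hV hD hA _ _ (hF N hN) X h w n⟩

omit hV hD hA in
/-- One infinite set of primes. -/
theorem one_set : ∃ P : Set Nat.Primes, P.Infinite ∧
    ∀ (M : C), (∃ N : ℕ, 0 < N ∧ AlmostAll D (split N) M) → AlmostAll D P M := by
  have h (n : ℕ) : ∃ p : Nat.Primes, n < p ∧ (p : ℕ) ≡ 1 [MOD n.factorial] := by
    obtain ⟨p, hp, h1, h2⟩ := Nat.exists_prime_gt_modEq_one n n.factorial_ne_zero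
    exact ⟨⟨p, hp⟩, h1, h2⟩
  choose f hf1 hf2 using h
  refine ⟨Set.range f, ?_, ?_⟩
  · intro hf
    obtain ⟨B, hB⟩ := (hf.image (fun p : Nat.Primes => (p : ℕ))).bddAbove
    have h1 := hB ⟨f B, ⟨B, rfl⟩, rfl⟩
    exact absurd (hf1 B) (not_lt.mpr h1)
  · rintro M ⟨N, hN, h⟩
    refine (h.union ((Set.finite_lt_nat N).image f)).subset ?_
    rintro _ ⟨⟨n, rfl⟩, hn⟩
    by_cases hnN : n < N
    · exact Or.inr ⟨n, hnN, rfl⟩
    · refine Or.inl ⟨?_, hn⟩
      exact (hf2 n).of_dvd (Nat.dvd_factorial hN (not_lt.mp hnN))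

/-- **Theorem**: Q1 for the varieties which come from the schemes generated by Fermat curves. -/
theorem fermat_inter (hI : IsIH V D I) (hF : FermatOrdinary V D) {F : Type} [Field F]
    [NumberField F] {X : Sch F} {n : ℤ} (hX : IsProjVar X)
    (hM : ComesFrom V D I (From ℚ (IsFermat ℚ)) F X n) :
    (∃ N : ℕ, 0 < N ∧ {p ∈ split N | ¬ ∀ v ∈ lying F p, I.Ord F X n v}.Finite) ∧
      {v | I.Ord F X n v}.Infinite := by
  obtain ⟨Y, w, m, M, hY, hs, hM⟩ := hM
  obtain ⟨N, hN, h⟩ := from_fermatN hY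
  have h1 : {p ∈ split N | ¬ ∀ v ∈ lying F p, I.Ord F X n v}.Finite :=
    inter_of hD hI hX (𝒞 := From ℚ (FermatN ℚ N)) ⟨Y, w, m, M, h, hs, hM⟩
      (fun Z hZ w n => from_ord hV hD hA _ _ (hF N hN) Z hZ w n)
  exact ⟨⟨N, hN, h1⟩, infinite_places (infinite_split hN) h1⟩

omit hV hD hA in
/-- smooth projective varieties over `ℚ` -/
lemma comesFrom_smooth (hI : IsIH V D I) {𝒞 : Sch ℚ → Prop} {X : Sch ℚ} (hX : IsSmProj X)
    (h : 𝒞 X) (n : ℤ) : ComesFrom V D I 𝒞 ℚ X n :=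
  ⟨X, n, n, V n n X, h, ⟨𝟙 _, 𝟙 _, Category.comp_id _⟩, hI.smooth X hX n⟩

/-- **Theorem**: one infinite set of primes. -/
theorem fermat_set (hI : IsIH V D I) (hF : FermatOrdinary V D) :
    ∃ P : Set Nat.Primes, P.Infinite ∧
      (∀ X : Sch ℚ, From ℚ (IsFermat ℚ) X → ∀ w n : ℤ, AlmostAll D P (V w n X)) ∧
      ∀ (F : Type) [Field F] [NumberField F] (X : Sch F) (n : ℤ), IsProjVar X →
        ComesFrom V D I (From ℚ (IsFermat ℚ)) F X n →
          {p ∈ P | ¬ ∀ v ∈ lying F p, I.Ord F X n v}.Finite := by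
  obtain ⟨P, hP, h⟩ := one_set (D := D)
  have h1 : ∀ X : Sch ℚ, From ℚ (IsFermat ℚ) X → ∀ w n : ℤ, AlmostAll D P (V w n X) := by
    intro X hX w n
    obtain ⟨N, hN, h2⟩ := fermat_ord hV hD hA hF hX
    exact h _ ⟨N, hN, h2 w n⟩
  exact ⟨P, hP, h1, fun F _ _ X n hX hM => inter_of hD hI hX hM h1⟩

end motives

end Pool.Agent.V5helper94.RO
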