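import Pool.Agent.V5helper94.RO.Torus

/-!
# Powers, products and sums
-/

set_option autoImplicit false

open CategoryTheory AlgebraicGeometry MvPolynomial Pool.Agent.Y116.UV Pool.Agent.Z125.UN
  Pool.Agent.V5helper52.SF Pool.Agent.V5helper94.SV TensorProduct

namespace Pool.Agent.V5helper94.RO

variable {k : Type} [Field k]

section

variable {sep : Prop} {P : Sch k → Prop} (hP : Cls0 sep P)

include hP

/-- powers -/
theorem gdN_pow {τ : Type} {f : MvPolynomial τ k} {M : ℕ} (hf : GdN P f M) (α : k)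
    {a : ℕ} (ha : 0 < a) : GdN P (C α * f ^ a) (a * M) := by
  have hf' := hf
  obtain ⟨hM, hτ, ρ, hρ, e, w, f', hw, rfl, h1⟩ := hf
  have h0 : e (C α * f' ^ a) = C α * e f' ^ a := by
    rw [map_mul, map_pow]
    congr 1
    exact e.commutes α
  refine ⟨Nat.mul_pos ha hM, hτ, ρ, hρ, e, w, C α * f' ^ a, ?_, h0, ?_⟩
  · have h := (hw.pow a).C_mul α
    rw [nsmul_eq_mul] at h
    rw [Nat.cast_mul]
    exact h
  · rw [fib_level0 hP, C_1]
    let I : Ideal (MvPolynomial Unit k) := Ideal.span {C α * X () ^ a - 1}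
    have hI : ringKrullDim (MvPolynomial Unit k ⧸ I) ≤ 0 := by
      refine dim_unit _ ?_
      rw [Ne, Ideal.span_singleton_eq_bot]
      intro h
      have h1 := congrArg constantCoeff h
      simp [ha.ne'] at h1
    have hg : GdN P f' M := ⟨hM, hρ, ρ, hρ, AlgEquiv.refl, w, f', hw, rfl, h1⟩
    let u : MvPolynomial Unit k ⧸ I := Ideal.Quotient.mk I (X ())
    have := kum_ft (k := k) hM u
    have h2 := gdN_step hP hg u (hP.zero _ ((ringKrullDim_quotient_le _).trans hI))
      (hP.zero _ ((kum_dim hM u).trans hI))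
    have h3 := fibPre (one f') I
    rw [pre_span, map_sub, map_one, map_mul, map_pow, aeval_X, aeval_C] at h3
    exact iso0 hP h3 h2

/-- products -/
theorem gdN_mul {τ σ : Type} {f : MvPolynomial τ k} {g : MvPolynomial σ k} {M N : ℕ}
    (hf : GdN P f M) (hg : GdN P g N) {a b : ℕ} (ha : 0 < a) (hb : 0 < b) :
    GdN P (rename Sum.inl f ^ a * rename Sum.inr g ^ b) (Nat.gcd (a * M) (b * N)) := by
  have hM := hf.1
  have hN := hg.1
  have h1 : aeval (pair f g) (mono k a b) = rename Sum.inl f ^ a * rename Sum.inr g ^ b := by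
    rw [mono, map_mul, map_pow, map_pow, aeval_X, aeval_X]
    rfl
  have h2 : aeval (pw k M N) (mono k a b) = mono k (M * a) (N * b) := by
    rw [mono, map_mul, map_pow, map_pow, aeval_X, aeval_X, mono, pow_mul, pow_mul]
    rfl
  rw [← h1]
  refine gdN_comp hP hf hg (mono k a b) (Nat.gcdA (a * M) (b * N)) (Nat.gcdB (a * M) (b * N)) _
    (Nat.gcd_pos_of_pos_left _ (Nat.mul_pos ha hM)) ?_ ?_
  · have h3 := Nat.gcd_eq_gcd_ab (a * M) (b * N)
    have h4 := ((isWeightedHomogeneous_X k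
      (Sum.elim (fun _ => Nat.gcdA (a * M) (b * N) * M) (fun _ => Nat.gcdB (a * M) (b * N) * N) :
        Unit ⊕ Unit → ℤ) (Sum.inl ())).pow a).mul ((isWeightedHomogeneous_X k
      (Sum.elim (fun _ => Nat.gcdA (a * M) (b * N) * M) (fun _ => Nat.gcdB (a * M) (b * N) * N) :
        Unit ⊕ Unit → ℤ) (Sum.inr ())).pow b)
    rw [Sum.elim_inl, Sum.elim_inr, nsmul_eq_mul, nsmul_eq_mul] at h4
    rw [h3]
    have h5 : ((a * M : ℕ) : ℤ) * Nat.gcdA (a * M) (b * N) +
        ((b * N : ℕ) : ℤ) * Nat.gcdB (a * M) (b * N) =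
        (a : ℤ) * (Nat.gcdA (a * M) (b * N) * M) + (b : ℤ) * (Nat.gcdB (a * M) (b * N) * N) := by
      push_cast
      ring
    rw [h5]
    exact h4
  · rw [h2]
    exact p_mono hP (Nat.mul_pos hM ha) (Nat.mul_pos hN hb)

/-- sums -/
theorem gdN_add {τ σ : Type} {f : MvPolynomial τ k} {g : MvPolynomial σ k} {M N : ℕ}
    (hf : GdN P f M) (hg : GdN P g N) (α β : k) {a b : ℕ} (ha : 0 < a) (hb : 0 < b)
    (h : P (fermat k α β (a * M) (b * N))) :
    GdN P (C α * rename Sum.inl f ^ a + C β * rename Sum.inr g ^ b)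
      (Nat.lcm (a * M) (b * N)) := by
  have hM := hf.1
  have hN := hg.1
  have haM := Nat.mul_pos ha hM
  have hbN := Nat.mul_pos hb hN
  have h1 : aeval (pair f g) (diag α β a b) =
      C α * rename Sum.inl f ^ a + C β * rename Sum.inr g ^ b := by
    rw [diag, map_add, map_mul, map_mul, map_pow, map_pow, aeval_X, aeval_X, aeval_C, aeval_C]
    rfl
  have h2 : aeval (pw k M N) (diag α β a b) = diag α β (a * M) (b * N) := by
    rw [diag, map_add, map_mul, map_mul, map_pow, map_pow, aeval_X, aeval_X, aeval_C, aeval_C,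
      diag, mul_comm a M, mul_comm b N, pow_mul, pow_mul]
    rfl
  obtain ⟨x, hx⟩ := Nat.dvd_lcm_left (a * M) (b * N)
  obtain ⟨y, hy⟩ := Nat.dvd_lcm_right (a * M) (b * N)
  rw [← h1]
  refine gdN_comp hP hf hg (diag α β a b) x y _ (Nat.lcm_pos haM hbN) ?_ ?_
  · rw [diag]
    refine IsWeightedHomogeneous.add (IsWeightedHomogeneous.C_mul ?_ _)
      (IsWeightedHomogeneous.C_mul ?_ _)
    · have h4 := (isWeightedHomogeneous_X k (Sum.elim (fun _ => (x : ℤ) * M)
        (fun _ => (y : ℤ) * N) : Unit ⊕ Unit → ℤ) (Sum.inl ())).pow a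
      rw [Sum.elim_inl, nsmul_eq_mul] at h4
      have h5 : ((Nat.lcm (a * M) (b * N) : ℕ) : ℤ) = (a : ℤ) * (x * M) := by
        rw [hx]
        push_cast
        ring
      rw [h5]
      exact h4
    · have h4 := (isWeightedHomogeneous_X k (Sum.elim (fun _ => (x : ℤ) * M)
        (fun _ => (y : ℤ) * N) : Unit ⊕ Unit → ℤ) (Sum.inr ())).pow b
      rw [Sum.elim_inr, nsmul_eq_mul] at h4
      have h5 : ((Nat.lcm (a * M) (b * N) : ℕ) : ℤ) = (b : ℤ) * (y * N) := by
        rw [hy]
        push_cast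
        ring
      rw [h5]
      exact h4
  · rw [h2]
    exact h

end

end Pool.Agent.V5helper94.RO
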