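import Pool.Agent.V5helper94.RO.Comp

/-!
# Products of powers
-/

set_option autoImplicit false

open CategoryTheory AlgebraicGeometry MvPolynomial Pool.Agent.Y116.UV Pool.Agent.Z125.UN
  Pool.Agent.V5helper52.SF Pool.Agent.V5helper94.SV TensorProduct

namespace Pool.Agent.V5helper94.RO

variable {k : Type} [Field k]

/-- The polynomial `u ^ m * v ^ n`. -/
noncomputable def mono (k : Type) [Field k] (m n : ℕ) : MvPolynomial (Unit ⊕ Unit) k :=
  X (Sum.inl ()) ^ m * X (Sum.inr ()) ^ n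

/-- The algebra `k[s, z] / (z ^ n - s ^ m)`. -/
abbrev Cusp (k : Type) [Field k] (m n : ℕ) : Type :=
  Fib (one (X () ^ n : MvPolynomial Unit k)) (MvPolynomial (Fin 1) k) (fun _ => X 0 ^ m)

/-- the coordinate `s` -/
noncomputable abbrev cs (k : Type) [Field k] (m n : ℕ) : Cusp k m n :=
  fc (one (X () ^ n : MvPolynomial Unit k)) (fun _ => X 0 ^ m) (X 0 : MvPolynomial (Fin 1) k)

/-- the algebra `s ^ m t ^ n = 1` -/
theorem torusIso {m n : ℕ} (hm : 0 < m) (hn : 0 < n) : Nonempty (Localization.Away (cs k m n) ≃ₐ[k]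
    (MvPolynomial (Unit ⊕ Unit) k ⧸ Ideal.span {mono k m n - 1})) := by
  let I : Ideal (MvPolynomial (Unit ⊕ Unit) k) := Ideal.span {mono k m n - 1}
  let T : Type := MvPolynomial (Unit ⊕ Unit) k ⧸ I
  let A : Type := Cusp k m n
  let W : Type := Localization.Away (cs k m n)
  let s : T := qu I
  let t : T := qv I
  have hst : s ^ m * t ^ n = 1 := by
    have h : Ideal.Quotient.mk I (mono k m n - 1) = 0 :=
      Ideal.Quotient.eq_zero_iff_mem.mpr (Ideal.mem_span_singleton_self _)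
    rw [map_sub, map_one, sub_eq_zero, mono, map_mul, map_pow, map_pow] at h
    exact h
  have hsu : IsUnit s := (isUnit_pow_iff hm.ne').mp (IsUnit.of_mul_eq_one _ hst)
  have htu : IsUnit t := (isUnit_pow_iff hn.ne').mp (IsUnit.of_mul_eq_one _ ((mul_comm _ _).trans hst))
  obtain ⟨tu, htu⟩ := htu
  have h1 : ((tu⁻¹ : Tˣ) : T) ^ n = s ^ m := by
    have h2 : s ^ m * ((tu ^ n : Tˣ) : T) = 1 := by rw [Units.val_pow_eq_pow_val, htu, hst]
    rw [← Units.val_pow_eq_pow_val, inv_pow]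
    exact (Units.eq_inv_of_mul_eq_one_right (u := tu ^ n) h2).symm
  -- the coordinates of `W`
  let ω : A →ₐ[k] W := IsScalarTower.toAlgHom k A W
  let S : W := ω (cs k m n)
  let Z : W := ω (fv _ _ ())
  have hSu : IsUnit S := IsLocalization.Away.algebraMap_isUnit (cs k m n)
  have hZ : Z ^ n = S ^ m := by
    have h := fib_rel (F := one (X () ^ n : MvPolynomial Unit k))
      (b := fun _ => (X 0 ^ m : MvPolynomial (Fin 1) k)) ()
    rw [map_pow, aeval_X, map_pow] at h
    change ω _ ^ n = ω _ ^ m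
    rw [← map_pow, ← map_pow, h]
  have hZu : IsUnit Z := (isUnit_pow_iff hn.ne').mp (hZ ▸ hSu.pow m)
  obtain ⟨zu, hzu⟩ := hZu
  -- from `W` to `T`
  let f1 : A →ₐ[k] T := fibLift (aeval fun _ => s) (fun _ => ((tu⁻¹ : Tˣ) : T)) (fun i => by
    rw [map_pow, aeval_X, h1, map_pow, aeval_X])
  have hf1c : f1 (cs k m n) = s := (fibLift_fc _ _ _ _).trans (aeval_X _ _)
  have hf1v : f1 (fv _ _ ()) = ((tu⁻¹ : Tˣ) : T) := fibLift_fv _ _ _ _
  let f : W →ₐ[k] T := IsLocalization.liftAlgHom (M := Submonoid.powers (cs k m n))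
    (S := Localization.Away (cs k m n)) (f := f1) (by
      rintro ⟨_, j, rfl⟩
      change IsUnit (f1 (cs k m n ^ j))
      rw [map_pow, hf1c]
      exact hsu.pow j)
  have hf : ∀ y, f (ω y) = f1 y := fun y => IsLocalization.lift_eq _ _
  -- from `T` to `W`
  let g : T →ₐ[k] W := qbLift S ((zu⁻¹ : Wˣ) : W) (by
    intro p hp
    obtain ⟨q, rfl⟩ := Ideal.mem_span_singleton'.mp hp
    rw [map_mul, map_sub, map_one, mono, map_mul, map_pow, map_pow, aeval_X, aeval_X]
    change _ * (S ^ m * ((zu⁻¹ : Wˣ) : W) ^ n - 1) = 0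
    rw [← hZ, ← hzu, ← mul_pow, Units.mul_inv, one_pow, sub_self, mul_zero])
  have hgs : g s = S := qbLift_qu _ _ _
  have hgt : g t = ((zu⁻¹ : Wˣ) : W) := qbLift_qv _ _ _
  have hgtu : g ((tu⁻¹ : Tˣ) : T) = Z := by
    have h2 : Units.map (g : T →* W) tu = zu⁻¹ := by
      ext
      change g (tu : T) = _
      rw [htu, hgt]
    have h3 : g ((tu⁻¹ : Tˣ) : T) = ((Units.map (g : T →* W) tu⁻¹ : Wˣ) : W) := rfl
    rw [h3, map_inv, h2, inv_inv, hzu]
  have hfz : f ((zu⁻¹ : Wˣ) : W) = t := by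
    have h2 : Units.map (f : W →* T) zu = tu⁻¹ := by
      ext
      change f (zu : W) = _
      rw [hzu, hf, hf1v]
    have h3 : f ((zu⁻¹ : Wˣ) : W) = ((Units.map (f : W →* T) zu⁻¹ : Tˣ) : T) := rfl
    rw [h3, map_inv, h2, inv_inv, htu]
  refine ⟨mkIso f g ?_ ?_⟩
  · apply AlgHom.coe_ringHom_injective
    refine IsLocalization.ringHom_ext (Submonoid.powers (cs k m n)) ?_
    have h2 : (g.comp f).comp ω = ω := by
      apply fib_ext
      · intro x
        have h3 : ((g.comp f).comp ω).comp (fc _ _) = ω.comp (fc _ _) := by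
          apply MvPolynomial.algHom_ext
          intro i
          rw [Subsingleton.elim i 0]
          change g (f (ω (cs k m n))) = ω (cs k m n)
          rw [hf, hf1c, hgs]
        exact DFunLike.congr_fun h3 x
      · rintro ⟨⟩
        rw [AlgHom.comp_apply, AlgHom.comp_apply, hf, hf1v, hgtu]
    exact congrArg (fun a : A →ₐ[k] W => (a : A →+* W)) h2
  · apply qb_ext
    · rw [AlgHom.comp_apply]
      change f (g s) = s
      rw [hgs, hf, hf1c]
    · rw [AlgHom.comp_apply]
      change f (g t) = t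
      rw [hgt, hfz]

section

variable {sep : Prop} {P : Sch k → Prop} (hP : Cls0 sep P)

include hP

/-- the one-dimensional diagonalizable groups -/
theorem p_mono {m n : ℕ} (hm : 0 < m) (hn : 0 < n) :
    P (aff k (MvPolynomial (Unit ⊕ Unit) k ⧸ Ideal.span {mono k m n - 1})) := by
  have hfin : Finite Unit := inferInstance
  have hw : IsWeightedHomogeneous (fun _ : Unit => (1 : ℤ)) (X () ^ n : MvPolynomial Unit k) (n : ℤ) := by
    have h := (isWeightedHomogeneous_X k (fun _ : Unit => (1 : ℤ)) ()).pow n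
    simpa using h
  have h1 : P (aff k (Fib (one (X () ^ n : MvPolynomial Unit k)) k (fun _ => (1 : k)))) := by
    rw [fib_level0 hP]
    refine hP.zero _ (dim_unit _ ?_)
    rw [Ne, Ideal.span_singleton_eq_bot]
    intro h
    have h1 := congrArg constantCoeff h
    simp [hn.ne'] at h1
  have := away_ft (k := k) (cs k m n)
  refine iso0 hP (torusIso hm hn) (of_kum0 hP hn _ ?_)
  have h2 := kum_ft (k := k) hn (X 0 : MvPolynomial (Fin 1) k)
  refine iso0_symm hP (fibKum (one (X () ^ n : MvPolynomial Unit k))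
    (fun _ => (X 0 ^ m : MvPolynomial (Fin 1) k)) n (X 0)) ?_
  obtain ⟨u, hu⟩ := (kr_unit k hn : IsUnit (kr n (X 0 : MvPolynomial (Fin 1) k)))
  have h3 := fib_unit0 hP hw hn h1 (u ^ m) (kum_line0 hP hn)
  have h4 : (((u ^ m : (Kum n (X 0 : MvPolynomial (Fin 1) k))ˣ) :
      Kum n (X 0 : MvPolynomial (Fin 1) k))) ^ n = kc k n (X 0) (X 0 ^ m) := by
    rw [Units.val_pow_eq_pow_val, hu, ← pow_mul, mul_comm, pow_mul, kr_pow (k := k), map_pow]
  rw [h4] at h3
  exact h3

end

end Pool.Agent.V5helper94.RO
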